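import Mathlib

/-!
# Averages over random subsets with independent membership

`avg R p F` is the average of `F A` where `A ⊆ R` contains each `y ∈ R` independently with
probability `p y`.
-/

namespace MP7172bf

noncomputable def wt (R : Finset ℤ) (p : ℤ → ℝ) (A : Finset ℤ) : ℝ :=
  ∏ y ∈ R, if y ∈ A then p y else 1 - p y

noncomputable def avg (R : Finset ℤ) (p : ℤ → ℝ) (F : Finset ℤ → ℝ) : ℝ :=
  ∑ A ∈ R.powerset, wt R p A * F A

lemma avg_congr {R : Finset ℤ} {p : ℤ → ℝ} {F G : Finset ℤ → ℝ}
    (h : ∀ A, A ⊆ R → F A = G A) : avg R p F = avg R p G := by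
  unfold avg
  refine Finset.sum_congr rfl fun A hA => ?_
  rw [h A (Finset.mem_powerset.1 hA)]

lemma avg_empty (p : ℤ → ℝ) (F : Finset ℤ → ℝ) : avg ∅ p F = F ∅ := by
  simp [avg, wt]

lemma avg_insert {R : Finset ℤ} {a : ℤ} (ha : a ∉ R) (p : ℤ → ℝ) (F : Finset ℤ → ℝ) :
    avg (insert a R) p F =
      (1 - p a) * avg R p F + p a * avg R p (fun A => F (insert a A)) := by
  unfold avg
  rw [Finset.sum_powerset_insert ha, Finset.mul_sum, Finset.mul_sum]
  congr 1
  · refine Finset.sum_congr rfl fun A hA => ?_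
    have hA' := Finset.mem_powerset.1 hA
    have haA : a ∉ A := fun h => ha (hA' h)
    unfold wt
    rw [Finset.prod_insert ha, if_neg haA]
    ring
  · refine Finset.sum_congr rfl fun A hA => ?_
    unfold wt
    rw [Finset.prod_insert ha, if_pos (Finset.mem_insert_self a A)]
    have : (∏ y ∈ R, if y ∈ insert a A then p y else 1 - p y) =
        ∏ y ∈ R, if y ∈ A then p y else 1 - p y := by
      refine Finset.prod_congr rfl fun y hy => ?_
      have hya : y ≠ a := fun h => ha (h ▸ hy)
      simp [Finset.mem_insert, hya]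
    rw [this]
    ring

lemma avg_add (R : Finset ℤ) (p : ℤ → ℝ) (F G : Finset ℤ → ℝ) :
    avg R p (fun A => F A + G A) = avg R p F + avg R p G := by
  unfold avg
  rw [← Finset.sum_add_distrib]
  exact Finset.sum_congr rfl fun A _ => by ring

lemma avg_smul (R : Finset ℤ) (p : ℤ → ℝ) (k : ℝ) (F : Finset ℤ → ℝ) :
    avg R p (fun A => k * F A) = k * avg R p F := by
  unfold avg
  rw [Finset.mul_sum]
  exact Finset.sum_congr rfl fun A _ => by ring

lemma avg_const (R : Finset ℤ) (p : ℤ → ℝ) (k : ℝ) : avg R p (fun _ => k) = k := by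
  induction R using Finset.induction_on with
  | empty => rw [avg_empty]
  | insert a R ha ih => rw [avg_insert ha, ih]; ring

lemma avg_card (R : Finset ℤ) (p : ℤ → ℝ) :
    avg R p (fun A => (A.card : ℝ)) = ∑ y ∈ R, p y := by
  induction R using Finset.induction_on with
  | empty => rw [avg_empty]; simp
  | insert a R ha ih =>
    have h2 : avg R p (fun A => ((insert a A).card : ℝ)) =
        avg R p (fun A => (A.card : ℝ) + 1) := by
      refine avg_congr fun A hA => ?_
      rw [Finset.card_insert_of_notMem (fun h => ha (hA h))]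
      push_cast; ring
    rw [avg_insert ha, h2, avg_add, avg_const, ih, Finset.sum_insert ha]
    ring

lemma avg_card_sq (R : Finset ℤ) (p : ℤ → ℝ) :
    avg R p (fun A => (A.card : ℝ) ^ 2) =
      (∑ y ∈ R, p y) ^ 2 + ∑ y ∈ R, p y * (1 - p y) := by
  induction R using Finset.induction_on with
  | empty => rw [avg_empty]; simp
  | insert a R ha ih =>
    have h2 : avg R p (fun A => ((insert a A).card : ℝ) ^ 2) =
        avg R p (fun A => (A.card : ℝ) ^ 2 + (2 * (A.card : ℝ) + 1)) := by
      refine avg_congr fun A hA => ?_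
      rw [Finset.card_insert_of_notMem (fun h => ha (hA h))]
      push_cast; ring
    rw [avg_insert ha, h2, avg_add, avg_add, avg_smul, avg_const, avg_card, ih,
      Finset.sum_insert ha, Finset.sum_insert ha]
    ring

lemma wt_nonneg {R : Finset ℤ} {p : ℤ → ℝ} (hp : ∀ y, 0 ≤ p y ∧ p y ≤ 1) (A : Finset ℤ) :
    0 ≤ wt R p A := by
  unfold wt
  refine Finset.prod_nonneg fun y _ => ?_
  split_ifs
  · exact (hp y).1
  · linarith [(hp y).2]

lemma avg_mono {R : Finset ℤ} {p : ℤ → ℝ} {F G : Finset ℤ → ℝ}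
    (hp : ∀ y, 0 ≤ p y ∧ p y ≤ 1)
    (h : ∀ A, A ⊆ R → (∀ y ∈ A, p y ≠ 0) → F A ≤ G A) : avg R p F ≤ avg R p G := by
  unfold avg
  refine Finset.sum_le_sum fun A hA => ?_
  have hA' := Finset.mem_powerset.1 hA
  by_cases h0 : ∀ y ∈ A, p y ≠ 0
  · exact mul_le_mul_of_nonneg_left (h A hA' h0) (wt_nonneg hp A)
  · push Not at h0
    obtain ⟨y, hy, hy0⟩ := h0
    have : wt R p A = 0 := by
      unfold wt
      exact Finset.prod_eq_zero (hA' hy) (by simp [hy, hy0])
    rw [this, zero_mul, zero_mul]

lemma avg_det {R : Finset ℤ} {p : ℤ → ℝ} {B : Finset ℤ} (hB : B ⊆ R)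
    (h1 : ∀ y ∈ B, p y = 1) (h0 : ∀ y ∈ R, y ∉ B → p y = 0) (F : Finset ℤ → ℝ) :
    avg R p F = F B := by
  unfold avg
  rw [Finset.sum_eq_single B]
  · have : wt R p B = 1 := by
      unfold wt
      refine Finset.prod_eq_one fun y hy => ?_
      by_cases hyB : y ∈ B
      · simp [hyB, h1 y hyB]
      · simp [hyB, h0 y hy hyB]
    rw [this, one_mul]
  · intro A hA hne
    have hA' := Finset.mem_powerset.1 hA
    have : wt R p A = 0 := by
      by_contra hw
      apply hne
      ext y
      constructor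
      · intro hy
        by_contra hyB
        exact hw (Finset.prod_eq_zero (hA' hy) (by simp [hy, h0 y (hA' hy) hyB]))
      · intro hy
        by_contra hyA
        exact hw (Finset.prod_eq_zero (hB hy) (by simp [hyA, h1 y hy]))
    rw [this, zero_mul]
  · intro h
    exact absurd (Finset.mem_powerset.2 hB) h

end MP7172bf
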