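import Mathlib

/-!
# Local problems on grids and uniform local algorithms

General definitions for MP_7172bf_co.
-/

namespace MP7172bf

open MeasureTheory

/-- Points of the grid `ℤ^d`. -/
abbrev Pt (d : ℕ) := Fin d → ℤ

/-- The `ℓ¹` norm on `ℤ^d`, i.e. the graph distance to the origin. -/
def nrm {d : ℕ} (v : Pt d) : ℕ := ∑ i, (v i).natAbs

/-- The ball of radius `n` around the origin of `ℤ^d`. -/
abbrev Ball (d n : ℕ) := {v : Pt d // nrm v ≤ n}

/-- The labelled ball of radius `n` around `u`, translated so that `u` is at the origin. -/
def look {d : ℕ} {α : Type} (n : ℕ) (f : Pt d → α) (u : Pt d) : Ball d n → α :=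
  fun b => f (u + b.1)

/-- A local problem: finite input and output alphabets, a radius `t`, and a set of allowed
labelled balls of radius `t`. -/
structure LocalProblem (d : ℕ) where
  In : Type
  Out : Type
  finIn : Finite In
  finOut : Finite Out
  t : ℕ
  allowed : Set (Ball d t → In × Out)

/-- `out` solves the problem `P` on the input labelling `inp`: every labelled ball of radius
`t` is allowed. -/
def LocalProblem.Solves {d : ℕ} (P : LocalProblem d) (inp : Pt d → P.In)
    (out : Pt d → P.Out) : Prop :=
  ∀ u, look P.t (fun v => (inp v, out v)) u ∈ P.allowed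

/-- A random string: an infinite sequence of bits. -/
abbrev Str := ℕ → Bool

/-- The law of a fair bit. -/
noncomputable def coin : Measure Bool := (PMF.uniformOfFintype Bool).toMeasure

/-- The law of a uniform random string: independent fair bits. -/
noncomputable def strM : Measure Str := Measure.infinitePi fun _ : ℕ => coin

/-- The law of the random labels: independent uniform random strings at the vertices. -/
noncomputable def rnd (d : ℕ) : Measure (Pt d → Str) := Measure.infinitePi fun _ : Pt d => strM

/-- A uniform local algorithm for `P`: a measurable stopping rule.  `rule n` looks at the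
input labels and random strings on the ball of radius `n` and either gives an output label or
asks for a larger ball; once it has given an output, it keeps it. -/
structure Algorithm {d : ℕ} (P : LocalProblem d) where
  rule : (n : ℕ) → (Ball d n → P.In × Str) → Option P.Out
  mono : ∀ (f : Pt d → P.In × Str) (n : ℕ) (o : P.Out),
    rule n (look n f 0) = some o → rule (n + 1) (look (n + 1) f 0) = some o
  meas : ∀ (n : ℕ) (i : Ball d n → P.In) (o : Option P.Out),
    MeasurableSet {s : Ball d n → Str | rule n (fun b => (i b, s b)) = o}

namespace Algorithm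

variable {d : ℕ} {P : LocalProblem d}

/-- What the algorithm says at `u` after inspecting the ball of radius `n` around `u`. -/
def run (A : Algorithm P) (inp : Pt d → P.In) (ω : Pt d → Str) (n : ℕ) (u : Pt d) :
    Option P.Out :=
  A.rule n (look n (fun v => (inp v, ω v)) u)

/-- The coding radius at `u` is larger than `r`: no radius `n ≤ r` is sufficient. -/
def Exceeds (A : Algorithm P) (inp : Pt d → P.In) (ω : Pt d → Str) (u : Pt d) (r : ℝ) : Prop :=
  ∀ n : ℕ, (n : ℝ) ≤ r → A.run inp ω n u = none

/-- The algorithm solves the problem: for every input labelling, almost surely every vertex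
gets an output and the outputs solve the problem. -/
def Solves (A : Algorithm P) : Prop :=
  ∀ inp : Pt d → P.In, ∀ᵐ ω ∂(rnd d), ∃ out : Pt d → P.Out,
    (∀ u, ∃ n, A.run inp ω n u = some (out u)) ∧ P.Solves inp out

/-- `P(R > r)`, the supremum over all input labellings of the probability that the coding
radius (at the origin) is larger than `r`. -/
noncomputable def tail (A : Algorithm P) (r : ℝ) : ENNReal :=
  ⨆ inp : Pt d → P.In, rnd d {ω | A.Exceeds inp ω 0 r}

/-- The algorithm has uniform complexity `f`. -/
def UniformComplexity (A : Algorithm P) (f : ℝ → ℝ) : Prop :=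
  ∃ ε₀ : ℝ, 0 < ε₀ ∧ ∀ ε : ℝ, 0 < ε → ε < ε₀ → A.tail (f ε) ≤ ENNReal.ofReal ε

end Algorithm

/-- The uniform complexity of the local problem `P` is `Θ(g)`: some algorithm solving `P` has
uniform complexity `O(g)`, and for every algorithm solving `P` there is `c > 0` with
`P(R > c g(ε)) > ε` for all small `ε > 0`. -/
def LocalProblem.ComplexityTheta {d : ℕ} (P : LocalProblem d) (g : ℝ → ℝ) : Prop :=
  (∃ A : Algorithm P, A.Solves ∧ ∃ K : ℝ, 0 < K ∧ A.UniformComplexity fun ε => K * g ε) ∧
  (∀ A : Algorithm P, A.Solves → ∃ c : ℝ, 0 < c ∧ ∃ ε₀ : ℝ, 0 < ε₀ ∧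
    ∀ ε : ℝ, 0 < ε → ε < ε₀ → ENNReal.ofReal ε < A.tail (c * g ε))

end MP7172bf
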