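import Pool.Agent.H.MP_7172bf_co.helper55.Step

/-!
# The flow, the alive vertices, locality and stability
-/

namespace MP7172bf

open Inp Mov

/-- The vertical move at `(x, y)`. -/
def mv (c : ℤ → ℤ → Inp) (r : ℤ → ℤ → ℤ) (x y : ℤ) : ℤ := mvk c x y (r x y)

/-- There is a chain of `n + 1` valid vertices leading to `(x, y)`. -/
def Alive (c : ℤ → ℤ → Inp) (r : ℤ → ℤ → ℤ) : ℕ → ℤ → ℤ → Prop
  | 0, x, y => Valid c x y
  | n + 1, x, y => Valid c x y ∧
      ((mv c r (x - 1) (y - 1) = 1 ∧ Alive c r n (x - 1) (y - 1)) ∨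
       (mv c r (x - 1) y = 0 ∧ Alive c r n (x - 1) y) ∨
       (mv c r (x - 1) (y + 1) = -1 ∧ Alive c r n (x - 1) (y + 1)))

open Classical in
/-- The value at `(x, y)` computed by looking `n` columns back. -/
noncomputable def valn (c : ℤ → ℤ → Inp) (r : ℤ → ℤ → ℤ) : ℕ → ℤ → ℤ → Bool
  | 0, x, y => decide (c x y = seed1)
  | n + 1, x, y => if Valid c x y then
      xor (decide (mv c r (x - 1) (y - 1) = 1) && valn c r n (x - 1) (y - 1))
        (xor (decide (mv c r (x - 1) y = 0) && valn c r n (x - 1) y)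
          (decide (mv c r (x - 1) (y + 1) = -1) && valn c r n (x - 1) (y + 1)))
      else decide (c x y = seed1)

/-- The output label of a move. -/
def dir (k : ℤ) : Mov := if k = 1 then up else if k = -1 then down else straight

/-- The output at `(x, y)` computed by looking `n` columns back. -/
noncomputable def outn (c : ℤ → ℤ → Inp) (r : ℤ → ℤ → ℤ) (n : ℕ) (x y : ℤ) : Mov :=
  if valn c r n x y = true then dir (mv c r x y) else zero

lemma valid_congr {c c' : ℤ → ℤ → Inp} {x y dx dy : ℤ}
    (h : ∀ a b : ℤ, |a - x| + |b - y| ≤ 2 → c a b = c' (a + dx) (b + dy)) :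
    Valid c x y ↔ Valid c' (x + dx) (y + dy) := by
  unfold Valid
  have h1 := h x y (by simp)
  have h2 := h x (y + 1) (by simp)
  have h3 := h x (y - 1) (by simp)
  have h4 := h (x - 1) y (by simp)
  have h5 := h (x - 1) (y + 1) (by simp)
  have h6 := h (x - 1) (y - 1) (by simp)
  rw [h1, h2, h3, h4, h5, h6]
  have e1 : y + 1 + dy = y + dy + 1 := by ring
  have e2 : y - 1 + dy = y + dy - 1 := by ring
  have e3 : x - 1 + dx = x + dx - 1 := by ring
  rw [e1, e2, e3]

lemma mv_congr {c c' : ℤ → ℤ → Inp} {r r' : ℤ → ℤ → ℤ} {x y dx dy : ℤ}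
    (h : ∀ a b : ℤ, |a - x| + |b - y| ≤ 1 → c a b = c' (a + dx) (b + dy))
    (hr : r x y = r' (x + dx) (y + dy)) :
    mv c r x y = mv c' r' (x + dx) (y + dy) := by
  unfold mv mvk
  have h2 := h x (y + 1) (by simp)
  have h3 := h x (y - 1) (by simp)
  have e1 : y + 1 + dy = y + dy + 1 := by ring
  have e2 : y - 1 + dy = y + dy - 1 := by ring
  rw [h2, h3, hr, e1, e2]

lemma near_of {a b x y : ℤ} {n : ℤ} {j : ℤ} (hj : |j| ≤ 1)
    (h : |a - (x - 1)| + |b - (y + j)| ≤ n) : |a - x| + |b - y| ≤ n + 2 := by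
  have h1 : |a - x| ≤ |a - (x - 1)| + 1 := by
    have := abs_sub_le a (x - 1) x
    have e : |x - 1 - x| = 1 := by
      have : x - 1 - x = -1 := by ring
      rw [this]; rfl
    linarith
  have h2 : |b - y| ≤ |b - (y + j)| + 1 := by
    have := abs_sub_le b (y + j) y
    have e : |y + j - y| = |j| := by
      have : y + j - y = j := by ring
      rw [this]
    linarith
  linarith

lemma near_of' {a b x y : ℤ} {n : ℤ}
    (h : |a - (x - 1)| + |b - (y - 1)| ≤ n) : |a - x| + |b - y| ≤ n + 2 :=
  near_of (j := -1) (by norm_num) (by simpa [sub_eq_add_neg] using h)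

lemma near_of0 {a b x y : ℤ} {n : ℤ}
    (h : |a - (x - 1)| + |b - y| ≤ n) : |a - x| + |b - y| ≤ n + 2 :=
  near_of (j := 0) (by norm_num) (by simpa using h)

lemma near_of1 {a b x y : ℤ} {n : ℤ}
    (h : |a - (x - 1)| + |b - (y + 1)| ≤ n) : |a - x| + |b - y| ≤ n + 2 :=
  near_of (j := 1) (by norm_num) h

lemma alive_congr {c c' : ℤ → ℤ → Inp} {r r' : ℤ → ℤ → ℤ} {dx dy : ℤ} (n : ℕ) :
    ∀ x y : ℤ, (∀ a b : ℤ, |a - x| + |b - y| ≤ 2 * n + 2 →
      c a b = c' (a + dx) (b + dy) ∧ r a b = r' (a + dx) (b + dy)) →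
    (Alive c r n x y ↔ Alive c' r' n (x + dx) (y + dy)) := by
  induction n with
  | zero =>
    intro x y h
    unfold Alive
    exact valid_congr fun a b hab => (h a b (by simpa using hab)).1
  | succ n ih =>
    intro x y h
    unfold Alive
    have hcast : (2 : ℤ) * ((n + 1 : ℕ) : ℤ) + 2 = (2 * n + 2) + 2 := by push_cast; ring
    rw [hcast] at h
    have hn0 : (0 : ℤ) ≤ 2 * n := by positivity
    have hv := valid_congr (c := c) (c' := c') (x := x) (y := y) (dx := dx) (dy := dy)
      fun a b hab => (h a b (by linarith)).1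
    have i1 := ih (x - 1) (y - 1) fun a b hab => h a b (near_of' hab)
    have i2 := ih (x - 1) y fun a b hab => h a b (near_of0 hab)
    have i3 := ih (x - 1) (y + 1) fun a b hab => h a b (near_of1 hab)
    have m1 := mv_congr (c := c) (c' := c') (r := r) (r' := r') (x := x - 1) (y := y - 1)
      (dx := dx) (dy := dy)
      (fun a b hab => (h a b (near_of' (by linarith))).1)
      (h _ _ (near_of' (by simp; linarith))).2
    have m2 := mv_congr (c := c) (c' := c') (r := r) (r' := r') (x := x - 1) (y := y)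
      (dx := dx) (dy := dy)
      (fun a b hab => (h a b (near_of0 (by linarith))).1)
      (h _ _ (near_of0 (by simp; linarith))).2
    have m3 := mv_congr (c := c) (c' := c') (r := r) (r' := r') (x := x - 1) (y := y + 1)
      (dx := dx) (dy := dy)
      (fun a b hab => (h a b (near_of1 (by linarith))).1)
      (h _ _ (near_of1 (by simp; linarith))).2
    rw [hv, i1, i2, i3, m1, m2, m3]
    have e1 : y + 1 + dy = y + dy + 1 := by ring
    have e2 : y - 1 + dy = y + dy - 1 := by ring
    have e3 : x - 1 + dx = x + dx - 1 := by ring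
    rw [e1, e2, e3]

lemma valn_congr {c c' : ℤ → ℤ → Inp} {r r' : ℤ → ℤ → ℤ} {dx dy : ℤ} (n : ℕ) :
    ∀ x y : ℤ, (∀ a b : ℤ, |a - x| + |b - y| ≤ 2 * n + 2 →
      c a b = c' (a + dx) (b + dy) ∧ r a b = r' (a + dx) (b + dy)) →
    valn c r n x y = valn c' r' n (x + dx) (y + dy) := by
  induction n with
  | zero =>
    intro x y h
    unfold valn
    rw [(h x y (by simp)).1]
  | succ n ih =>
    intro x y h
    unfold valn
    have hcast : (2 : ℤ) * ((n + 1 : ℕ) : ℤ) + 2 = (2 * n + 2) + 2 := by push_cast; ring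
    rw [hcast] at h
    have hn0 : (0 : ℤ) ≤ 2 * n := by positivity
    have hv := valid_congr (c := c) (c' := c') (x := x) (y := y) (dx := dx) (dy := dy)
      fun a b hab => (h a b (by linarith)).1
    have i1 := ih (x - 1) (y - 1) fun a b hab => h a b (near_of' hab)
    have i2 := ih (x - 1) y fun a b hab => h a b (near_of0 hab)
    have i3 := ih (x - 1) (y + 1) fun a b hab => h a b (near_of1 hab)
    have m1 := mv_congr (c := c) (c' := c') (r := r) (r' := r') (x := x - 1) (y := y - 1)
      (dx := dx) (dy := dy)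
      (fun a b hab => (h a b (near_of' (by linarith))).1)
      (h _ _ (near_of' (by simp; linarith))).2
    have m2 := mv_congr (c := c) (c' := c') (r := r) (r' := r') (x := x - 1) (y := y)
      (dx := dx) (dy := dy)
      (fun a b hab => (h a b (near_of0 (by linarith))).1)
      (h _ _ (near_of0 (by simp; linarith))).2
    have m3 := mv_congr (c := c) (c' := c') (r := r) (r' := r') (x := x - 1) (y := y + 1)
      (dx := dx) (dy := dy)
      (fun a b hab => (h a b (near_of1 (by linarith))).1)
      (h _ _ (near_of1 (by simp; linarith))).2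
    have h0 := (h x y (by simp; linarith)).1
    rw [i1, i2, i3, m1, m2, m3, h0]
    have e1 : y + 1 + dy = y + dy + 1 := by ring
    have e2 : y - 1 + dy = y + dy - 1 := by ring
    have e3 : x - 1 + dx = x + dx - 1 := by ring
    rw [e1, e2, e3]
    by_cases hV : Valid c x y
    · rw [if_pos hV, if_pos (hv.1 hV)]
    · rw [if_neg hV, if_neg (fun h' => hV (hv.2 h'))]

lemma outn_congr {c c' : ℤ → ℤ → Inp} {r r' : ℤ → ℤ → ℤ} {dx dy : ℤ} (n : ℕ)
    (x y : ℤ) (h : ∀ a b : ℤ, |a - x| + |b - y| ≤ 2 * n + 2 →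
      c a b = c' (a + dx) (b + dy) ∧ r a b = r' (a + dx) (b + dy)) :
    outn c r n x y = outn c' r' n (x + dx) (y + dy) := by
  unfold outn
  have hn0 : (0 : ℤ) ≤ 2 * n := by positivity
  rw [valn_congr n x y h, mv_congr (c := c) (c' := c') (r := r) (r' := r') (x := x) (y := y)
      (dx := dx) (dy := dy) (fun a b hab => (h a b (by linarith)).1)
      (h x y (by simp; linarith)).2]

variable {c : ℤ → ℤ → Inp} {r : ℤ → ℤ → ℤ}

lemma Alive.valid {n : ℕ} {x y : ℤ} (h : Alive c r n x y) : Valid c x y := by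
  cases n with
  | zero => exact h
  | succ n => exact h.1

lemma alive_anti (n : ℕ) : ∀ x y : ℤ, Alive c r (n + 1) x y → Alive c r n x y := by
  induction n with
  | zero => intro x y h; exact h.1
  | succ n ih =>
    intro x y h
    refine ⟨h.1, ?_⟩
    rcases h.2 with h | h | h
    · exact Or.inl ⟨h.1, ih _ _ h.2⟩
    · exact Or.inr (Or.inl ⟨h.1, ih _ _ h.2⟩)
    · exact Or.inr (Or.inr ⟨h.1, ih _ _ h.2⟩)

lemma not_alive_mono {m n : ℕ} (hmn : m ≤ n) {x y : ℤ} (h : ¬ Alive c r m x y) :
    ¬ Alive c r n x y := by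
  induction n, hmn using Nat.le_induction with
  | base => exact h
  | succ n _ ih => exact fun hn => ih (alive_anti n x y hn)

lemma valn_stable (n : ℕ) : ∀ x y : ℤ, ¬ Alive c r n x y → ∀ m, n ≤ m →
    valn c r m x y = valn c r n x y := by
  induction n with
  | zero =>
    intro x y h m _
    have hv : ¬ Valid c x y := h
    cases m with
    | zero => rfl
    | succ m => unfold valn; rw [if_neg hv]
  | succ n ih =>
    intro x y h m hm
    obtain ⟨k, rfl⟩ : ∃ k, m = k + 1 := ⟨m - 1, by omega⟩
    have hk : n ≤ k := by omega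
    by_cases hv : Valid c x y
    · have h1 : (decide (mv c r (x - 1) (y - 1) = 1) && valn c r k (x - 1) (y - 1)) =
          (decide (mv c r (x - 1) (y - 1) = 1) && valn c r n (x - 1) (y - 1)) := by
        by_cases hm1 : mv c r (x - 1) (y - 1) = 1
        · rw [ih _ _ (fun ha => h ⟨hv, Or.inl ⟨hm1, ha⟩⟩) k hk]
        · simp [hm1]
      have h2 : (decide (mv c r (x - 1) y = 0) && valn c r k (x - 1) y) =
          (decide (mv c r (x - 1) y = 0) && valn c r n (x - 1) y) := by
        by_cases hm1 : mv c r (x - 1) y = 0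
        · rw [ih _ _ (fun ha => h ⟨hv, Or.inr (Or.inl ⟨hm1, ha⟩)⟩) k hk]
        · simp [hm1]
      have h3 : (decide (mv c r (x - 1) (y + 1) = -1) && valn c r k (x - 1) (y + 1)) =
          (decide (mv c r (x - 1) (y + 1) = -1) && valn c r n (x - 1) (y + 1)) := by
        by_cases hm1 : mv c r (x - 1) (y + 1) = -1
        · rw [ih _ _ (fun ha => h ⟨hv, Or.inr (Or.inr ⟨hm1, ha⟩)⟩) k hk]
        · simp [hm1]
      unfold valn
      rw [if_pos hv, if_pos hv, h1, h2, h3]
    · unfold valn
      rw [if_neg hv, if_neg hv]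

lemma mvk_up {x y k : ℤ} (h : mvk c x y k = 1) : c x (y + 1) ≠ void := by
  unfold mvk at h
  split_ifs at h with h1 h2
  · exact h1.2
  · norm_num at h

lemma mvk_down {x y k : ℤ} (h : mvk c x y k = -1) : c x (y - 1) ≠ void := by
  unfold mvk at h
  split_ifs at h with h1 h2
  exact h2.2

lemma mvk_cases (c : ℤ → ℤ → Inp) (x y k : ℤ) :
    mvk c x y k = 1 ∨ mvk c x y k = 0 ∨ mvk c x y k = -1 := by
  unfold mvk
  split_ifs <;> simp

lemma mv_cases (c : ℤ → ℤ → Inp) (r : ℤ → ℤ → ℤ) (x y : ℤ) :
    mv c r x y = 1 ∨ mv c r x y = 0 ∨ mv c r x y = -1 := mvk_cases c x y _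

/-- The constraints of the local problem at `(x, y)`. -/
def Con (c : ℤ → ℤ → Inp) (o : ℤ → ℤ → Mov) (x y : ℤ) : Prop :=
  (c x y = seed1 → o x y ≠ zero) ∧
  (c x y = seed0 → o x y = zero) ∧
  (c x y = void → o x y = zero) ∧
  (o x y = up → c x (y + 1) ≠ void) ∧
  (o x y = down → c x (y - 1) ≠ void) ∧
  (Valid c x y → decide (o x y ≠ zero) =
    xor (decide (o (x - 1) (y - 1) = up))
      (xor (decide (o (x - 1) y = straight)) (decide (o (x - 1) (y + 1) = down))))

lemma dir_ne_zero (k : ℤ) : dir k ≠ zero := by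
  unfold dir
  split_ifs <;> decide

lemma out_up (v : Bool) (k : ℤ) :
    decide ((if v = true then dir k else zero) = up) = (decide (k = 1) && v) := by
  cases v
  · simp
  · by_cases h : k = 1
    · simp [dir, h]
    · by_cases h' : k = -1 <;> simp [dir, h, h']

lemma out_down (v : Bool) (k : ℤ) :
    decide ((if v = true then dir k else zero) = down) = (decide (k = -1) && v) := by
  cases v
  · simp
  · by_cases h : k = 1
    · simp [dir, h]
    · by_cases h' : k = -1 <;> simp [dir, h, h']

lemma out_straight (v : Bool) {k : ℤ} (hk : k = 1 ∨ k = 0 ∨ k = -1) :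
    decide ((if v = true then dir k else zero) = straight) = (decide (k = 0) && v) := by
  cases v
  · simp
  · rcases hk with h | h | h <;> simp [dir, h]

lemma out_ne (v : Bool) (k : ℤ) :
    decide ((if v = true then dir k else zero) ≠ zero) = v := by
  cases v
  · simp
  · simp [dir_ne_zero]

/-- The outputs given by the final values satisfy all the constraints. -/
lemma con_of_final {val : ℤ → ℤ → Bool}
    (hfin : ∀ x y, ∃ n, ∀ m, n ≤ m → valn c r m x y = val x y) (x y : ℤ) :
    Con c (fun x y => if val x y = true then dir (mv c r x y) else zero) x y := by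
  classical
  have hval : ∀ x y, val x y = if Valid c x y then
      xor (decide (mv c r (x - 1) (y - 1) = 1) && val (x - 1) (y - 1))
        (xor (decide (mv c r (x - 1) y = 0) && val (x - 1) y)
          (decide (mv c r (x - 1) (y + 1) = -1) && val (x - 1) (y + 1)))
      else decide (c x y = seed1) := by
    intro x y
    obtain ⟨n0, h0⟩ := hfin x y
    obtain ⟨n1, h1⟩ := hfin (x - 1) (y - 1)
    obtain ⟨n2, h2⟩ := hfin (x - 1) y
    obtain ⟨n3, h3⟩ := hfin (x - 1) (y + 1)
    have g0 := h0 (n0 + n1 + n2 + n3 + 1) (by omega)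
    have g1 := h1 (n0 + n1 + n2 + n3) (by omega)
    have g2 := h2 (n0 + n1 + n2 + n3) (by omega)
    have g3 := h3 (n0 + n1 + n2 + n3) (by omega)
    rw [← g0, ← g1, ← g2, ← g3]
    rfl
  have hnv : ∀ x y, ¬ Valid c x y → val x y = decide (c x y = seed1) := by
    intro x y h
    rw [hval, if_neg h]
  refine ⟨?_, ?_, ?_, ?_, ?_, ?_⟩
  · intro h
    have hn : ¬ Valid c x y := by
      intro hv
      rcases hv.cases with h' | h' | h' | h' <;> rw [h] at h' <;> exact absurd h' (by decide)
    simp [hnv x y hn, h, dir_ne_zero]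
  · intro h
    have hn : ¬ Valid c x y := by
      intro hv
      rcases hv.cases with h' | h' | h' | h' <;> rw [h] at h' <;> exact absurd h' (by decide)
    simp [hnv x y hn, h]
  · intro h
    have hn : ¬ Valid c x y := fun hv => hv.ne_void h
    simp [hnv x y hn, h]
  · intro h
    have h1 : decide ((if val x y = true then dir (mv c r x y) else zero) = up) = true := by
      simpa using h
    rw [out_up] at h1
    simp only [Bool.and_eq_true, decide_eq_true_eq] at h1
    exact mvk_up h1.1
  · intro h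
    have h1 : decide ((if val x y = true then dir (mv c r x y) else zero) = down) = true := by
      simpa using h
    rw [out_down] at h1
    simp only [Bool.and_eq_true, decide_eq_true_eq] at h1
    exact mvk_down h1.1
  · intro hv
    rw [out_ne, out_up, out_down, out_straight _ (mv_cases c r _ _), hval x y, if_pos hv]

end MP7172bf
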