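import Mathlib

/-!
# The input labels, the local validity rule and its consequences

A column of a valid region is an interval of cells, either all `rest`, or
`below … below head above … above` (from bottom to top).  Moving one column to the right the
head moves one cell up; when it reaches the top, the next column consists of one more cell
and is all `rest`; then the head starts again from the bottom.
-/

namespace MP7172bf

inductive Inp : Type
  | void | below | head | above | rest | seed0 | seed1
  deriving DecidableEq

inductive Mov : Type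
  | zero | up | straight | down
  deriving DecidableEq

instance : Finite Inp := by
  let f : Inp → Fin 7 := fun i => match i with
    | .void => 0 | .below => 1 | .head => 2 | .above => 3 | .rest => 4 | .seed0 => 5
    | .seed1 => 6
  refine Finite.of_injective f ?_
  intro a b h
  cases a <;> cases b <;> first | rfl | (exact absurd h (by decide))

instance : Finite Mov := by
  let f : Mov → Fin 4 := fun i => match i with
    | .zero => 0 | .up => 1 | .straight => 2 | .down => 3
  refine Finite.of_injective f ?_
  intro a b h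
  cases a <;> cases b <;> first | rfl | (exact absurd h (by decide))

open Inp

/-- The local rule: `c0` is the label of the vertex, `ca`, `cb` those above and below it,
`l0`, `la`, `lb` those of the three corresponding vertices one column to the left. -/
def Ok (c0 ca cb l0 la lb : Inp) : Prop :=
  (c0 = below ∨ c0 = head ∨ c0 = above ∨ c0 = rest) ∧
  (l0 ≠ void → ca = void → la = void) ∧
  (l0 ≠ void → cb = void → lb = void) ∧
  (l0 = below ∨ l0 = head → c0 = below ∨ c0 = rest) ∧
  (l0 = above ∨ l0 = rest → c0 = head ∨ c0 = above) ∧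
  (c0 = rest → ca = rest ∨ ca = void) ∧
  (c0 = rest → ca = void → l0 ≠ head) ∧
  (c0 = below → ca = below ∨ ca = head) ∧
  (c0 = above → cb ≠ void)

/-- The vertex `(x, y)` is valid. -/
def Valid (c : ℤ → ℤ → Inp) (x y : ℤ) : Prop :=
  Ok (c x y) (c x (y + 1)) (c x (y - 1)) (c (x - 1) y) (c (x - 1) (y + 1)) (c (x - 1) (y - 1))

variable {c : ℤ → ℤ → Inp} {X : ℤ}

lemma Valid.cases {x y : ℤ} (h : Valid c x y) :
    c x y = below ∨ c x y = head ∨ c x y = above ∨ c x y = rest := h.1

lemma Valid.ne_void {x y : ℤ} (h : Valid c x y) : c x y ≠ void := by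
  rcases h.cases with h | h | h | h <;> rw [h] <;> decide

/-- `A` is full at column `X`: the neighbours of `A` outside `A` are void. -/
def Full (c : ℤ → ℤ → Inp) (X : ℤ) (A : Finset ℤ) : Prop :=
  ∀ y ∈ A, (y + 1 ∉ A → c X (y + 1) = void) ∧ (y - 1 ∉ A → c X (y - 1) = void)

/-- Some element of `A` has an invalid left neighbour. -/
def Dec (c : ℤ → ℤ → Inp) (X : ℤ) (A : Finset ℤ) : Prop :=
  ∃ y ∈ A, ¬ Valid c (X - 1) y

/-- All vertices of `A` at column `X` are valid. -/
def AllValid (c : ℤ → ℤ → Inp) (X : ℤ) (A : Finset ℤ) : Prop :=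
  ∀ y ∈ A, Valid c X y

/-- The number of `below` labels in `A` at column `X`. -/
def nbel (c : ℤ → ℤ → Inp) (X : ℤ) (A : Finset ℤ) : ℕ := (A.filter fun y => c X y = below).card

lemma nbel_le (A : Finset ℤ) : nbel c X A ≤ A.card := Finset.card_filter_le _ _

lemma full_left {A : Finset ℤ} (hv : AllValid c X A) (hf : Full c X A) (hd : ¬ Dec c X A) :
    Full c (X - 1) A := by
  intro y hy
  have hl : Valid c (X - 1) y := by
    by_contra h
    exact hd ⟨y, hy, h⟩
  have hl0 := hl.ne_void
  obtain ⟨-, h1, h2, -⟩ := hv y hy
  exact ⟨fun h => h1 hl0 ((hf y hy).1 h), fun h => h2 hl0 ((hf y hy).2 h)⟩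

/-- In a full column, if some cell is `rest`, then the column to the left is not valid. -/
lemma dec_of_rest {A : Finset ℤ} (hv : AllValid c X A) (hf : Full c X A) {z : ℤ} (hz : z ∈ A)
    (hr : c X z = rest) : Dec c X A := by
  classical
  set S := A.filter fun y => c X y = rest with hS
  have hzS : z ∈ S := by simp [hS, hz, hr]
  obtain ⟨t, ht, hmax⟩ := S.exists_max_image id ⟨z, hzS⟩
  have htA : t ∈ A := (Finset.mem_filter.1 ht).1
  have htr : c X t = rest := (Finset.mem_filter.1 ht).2
  obtain ⟨-, h1, -, h4, h5, h6, h7, -, -⟩ := hv t htA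
  have hnot : t + 1 ∉ A := by
    intro h
    have hval := (hv _ h).ne_void
    have : c X (t + 1) = rest := by
      rcases h6 htr with h' | h'
      · exact h'
      · exact absurd h' hval
    have : t + 1 ∈ S := by simp [hS, h, this]
    have := hmax _ this
    simp only [id] at this
    omega
  have hvoid : c X (t + 1) = void := (hf t htA).1 hnot
  refine ⟨t, htA, fun hl => ?_⟩
  have hla : c (X - 1) (t + 1) = void := h1 hl.ne_void hvoid
  rcases hl.cases with h | h | h | h
  · obtain ⟨-, -, -, -, -, -, -, h8, -⟩ := hl
    rcases h8 h with h' | h' <;> rw [hla] at h' <;> exact absurd h' (by decide)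
  · exact h7 htr hvoid h
  · rcases h5 (Or.inl h) with h' | h' <;> rw [htr] at h' <;> exact absurd h' (by decide)
  · rcases h5 (Or.inr h) with h' | h' <;> rw [htr] at h' <;> exact absurd h' (by decide)

/-- A nonempty full valid set without `rest` contains a `head`. -/
lemma exists_head {A : Finset ℤ} (hv : AllValid c X A) (hf : Full c X A) (hne : A.Nonempty)
    (hr : ∀ z ∈ A, c X z ≠ rest) : ∃ z ∈ A, c X z = head := by
  classical
  obtain ⟨z, hz, hmin⟩ := A.exists_min_image id hne
  have hz1 : z - 1 ∉ A := by
    intro h
    have := hmin _ h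
    simp only [id] at this
    omega
  have hb : c X (z - 1) = void := (hf z hz).2 hz1
  rcases (hv z hz).cases with h | h | h | h
  · set S := A.filter fun y => c X y = below with hS
    have hzS : z ∈ S := by simp [hS, hz, h]
    obtain ⟨t, ht, hmax⟩ := S.exists_max_image id ⟨z, hzS⟩
    have htA : t ∈ A := (Finset.mem_filter.1 ht).1
    have htr : c X t = below := (Finset.mem_filter.1 ht).2
    obtain ⟨-, -, -, -, -, -, -, h8, -⟩ := hv t htA
    have hne1 : c X (t + 1) ≠ void := by
      rcases h8 htr with h' | h' <;> rw [h'] <;> decide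
    have hin : t + 1 ∈ A := by
      by_contra hn
      exact hne1 ((hf t htA).1 hn)
    refine ⟨t + 1, hin, ?_⟩
    rcases h8 htr with h' | h'
    · have : t + 1 ∈ S := by simp [hS, hin, h']
      have := hmax _ this
      simp only [id] at this
      omega
    · exact h'
  · exact ⟨z, hz, h⟩
  · obtain ⟨-, -, -, -, -, -, -, -, h9⟩ := hv z hz
    exact absurd hb (h9 h)
  · exact absurd h (hr z hz)

/-- The number of `below` labels drops at a frozen step. -/
lemma nbel_lt {A : Finset ℤ} (hne : A.Nonempty) (hv : AllValid c X A) (hf : Full c X A)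
    (hd : ¬ Dec c X A) (hd' : ¬ Dec c (X - 1) A) : nbel c (X - 1) A < nbel c X A := by
  classical
  have hvl : AllValid c (X - 1) A := by
    intro y hy
    by_contra h
    exact hd ⟨y, hy, h⟩
  have hfl : Full c (X - 1) A := full_left hv hf hd
  have hr : ∀ z ∈ A, c X z ≠ rest := fun z hz h => hd (dec_of_rest hv hf hz h)
  have hrl : ∀ z ∈ A, c (X - 1) z ≠ rest := fun z hz h => hd' (dec_of_rest hvl hfl hz h)
  obtain ⟨z, hz, hzh⟩ := exists_head hvl hfl hne hrl
  refine Finset.card_lt_card (Finset.ssubset_iff_subset_ne.2 ⟨?_, ?_⟩)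
  · intro y hy
    rw [Finset.mem_filter] at hy ⊢
    refine ⟨hy.1, ?_⟩
    obtain ⟨-, -, -, h4, -⟩ := hv y hy.1
    rcases h4 (Or.inl hy.2) with h | h
    · exact h
    · exact absurd h (hr y hy.1)
  · intro heq
    have hzin : z ∈ A.filter fun y => c X y = below := by
      rw [Finset.mem_filter]
      refine ⟨hz, ?_⟩
      obtain ⟨-, -, -, h4, -⟩ := hv z hz
      rcases h4 (Or.inr hzh) with h | h
      · exact h
      · exact absurd h (hr z hz)
    rw [← heq, Finset.mem_filter, hzh] at hzin
    exact absurd hzin.2 (by decide)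

end MP7172bf
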