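import Pool.Agent.H.MP_7172bf_co.helper55.Step

/-!
# The potential and the survival bound
-/

namespace MP7172bf

open Inp

noncomputable def gq (M N : ℝ) : ℝ := N * (6 * M - N)

open Classical in
noncomputable def Kf (c : ℤ → ℤ → Inp) (M : ℝ) (X : ℤ) (A : Finset ℤ) : ℝ :=
  if Dec c X A then 0 else if Full c X A then (nbel c X A : ℝ) + 1 else 3 * M + 2

variable {c : ℤ → ℤ → Inp} {X : ℤ} {M : ℝ}

lemma Kf_nonneg (hM : 1 ≤ M) (A : Finset ℤ) : 0 ≤ Kf c M X A := by
  unfold Kf
  split_ifs
  · exact le_rfl
  · positivity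
  · linarith

lemma Kf_le (hM : 1 ≤ M) {A : Finset ℤ} (hA : (A.card : ℝ) ≤ 3 * M) :
    Kf c M X A ≤ 3 * M + 2 := by
  unfold Kf
  have h : (nbel c X A : ℝ) ≤ A.card := by exact_mod_cast nbel_le A
  split_ifs <;> linarith

lemma avg_gq (R : Finset ℤ) (p : ℤ → ℝ) :
    avg R p (fun A => gq M A.card) =
      6 * M * (∑ y ∈ R, p y) - (∑ y ∈ R, p y) ^ 2 - ∑ y ∈ R, p y * (1 - p y) := by
  have h : avg R p (fun A => gq M A.card) =
      avg R p (fun A => 6 * M * (A.card : ℝ) + (-1) * (A.card : ℝ) ^ 2) := by
    refine avg_congr fun A _ => ?_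
    unfold gq
    ring
  rw [h, avg_add, avg_smul, avg_smul, avg_card, avg_card_sq]
  ring

lemma card_sub_le {A A' : Finset ℤ} (h : A' ⊆ nb A) : (A'.card : ℝ) ≤ 3 * A.card := by
  have := (Finset.card_le_card h).trans (card_nb A)
  exact_mod_cast this

lemma sum_var_nonneg (A R : Finset ℤ) : 0 ≤ ∑ y ∈ R, pr c X A y * (1 - pr c X A y) := by
  refine Finset.sum_nonneg fun y _ => ?_
  have := pr_mem (c := c) (X := X) A y
  exact mul_nonneg this.1 (by linarith)

lemma sum_pr_nonneg (A R : Finset ℤ) : 0 ≤ ∑ y ∈ R, pr c X A y :=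
  Finset.sum_nonneg fun y _ => (pr_mem (c := c) (X := X) A y).1

lemma sum_pr_le_card (A : Finset ℤ) : ∑ y ∈ nb A, pr c X A y ≤ A.card := by
  refine (sum_pr_le A).trans ?_
  have : ∑ y ∈ A, (1 - 1 / 2 * ind (¬ Valid c X y)) ≤ ∑ _y ∈ A, (1 : ℝ) := by
    refine Finset.sum_le_sum fun y _ => ?_
    have := ind_nonneg (¬ Valid c X y)
    linarith
  simpa using this

lemma sum_pr_le_dec {A : Finset ℤ} (hd : Dec c X A) :
    ∑ y ∈ nb A, pr c (X - 1) A y ≤ A.card - 1 / 2 := by
  refine (sum_pr_le A).trans ?_
  obtain ⟨z, hz, hzv⟩ := hd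
  rw [Finset.sum_sub_distrib]
  have h1 : ∑ _y ∈ A, (1 : ℝ) = A.card := by simp
  rw [h1]
  have h2 : 1 / 2 * ind (¬ Valid c (X - 1) z) ≤
      ∑ y ∈ A, 1 / 2 * ind (¬ Valid c (X - 1) y) := by
    refine Finset.single_le_sum (f := fun y => 1 / 2 * ind (¬ Valid c (X - 1) y))
      (fun y _ => ?_) hz
    have := ind_nonneg (¬ Valid c (X - 1) y)
    positivity
  rw [ind_true hzv] at h2
  linarith

lemma pr_one_of_frozen {A : Finset ℤ} (hv : AllValid c X A) (hf : Full c X A) {y : ℤ}
    (hy : y ∈ A) : pr c X A y = 1 := by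
  unfold pr
  rw [if_pos (hv y hy), mvk_zero, add_zero, ind_true hy]
  have h1 : y + mvk c X y 1 ∈ A := by
    by_cases h : c X (y + 1) = void
    · rw [mvk_one' c X y h, add_zero]; exact hy
    · rw [mvk_one c X y h]
      by_contra hn
      exact h ((hf y hy).1 hn)
  have h2 : y + mvk c X y (-1) ∈ A := by
    by_cases h : c X (y - 1) = void
    · rw [mvk_neg' c X y h, add_zero]; exact hy
    · rw [mvk_neg c X y h]
      by_contra hn
      exact h ((hf y hy).2 (by simpa [sub_eq_add_neg] using hn))
  rw [ind_true h1, ind_true h2]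
  norm_num

lemma pr_zero_of_frozen {A : Finset ℤ} (hf : Full c X A) {y : ℤ}
    (hy : y ∉ A) : pr c X A y = 0 := by
  unfold pr
  split_ifs with hv
  · rw [mvk_zero, add_zero, ind_false hy]
    have h1 : y + mvk c X y 1 ∉ A := by
      by_cases h : c X (y + 1) = void
      · rw [mvk_one' c X y h, add_zero]; exact hy
      · rw [mvk_one c X y h]
        intro hin
        have e : y + 1 - 1 = y := by ring
        have := (hf _ hin).2
        rw [e] at this
        exact hv.ne_void (this hy)
    have h2 : y + mvk c X y (-1) ∉ A := by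
      by_cases h : c X (y - 1) = void
      · rw [mvk_neg' c X y h, add_zero]; exact hy
      · rw [mvk_neg c X y h]
        intro hin
        have e : y + -1 + 1 = y := by ring
        have := (hf _ hin).1
        rw [e] at this
        exact hv.ne_void (this hy)
    rw [ind_false h1, ind_false h2]
    norm_num
  · rfl

/-- If `A` is all valid but not full there is a vertex with nondegenerate move. -/
lemma exists_var {A : Finset ℤ} (hv : AllValid c X A) (hf : ¬ Full c X A) :
    ∃ y ∈ A, 1 / 2 ≤ pr c X A y ∧ pr c X A y ≤ 3 / 4 := by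
  unfold Full at hf
  push Not at hf
  obtain ⟨y, hy, hyy⟩ := hf
  refine ⟨y, hy, ?_⟩
  unfold pr
  rw [if_pos (hv y hy), mvk_zero, add_zero, ind_true hy]
  have a1 := ind_nonneg (y + mvk c X y 1 ∈ A)
  have a2 := ind_nonneg (y + mvk c X y (-1) ∈ A)
  have a3 := ind_le_one (y + mvk c X y 1 ∈ A)
  have a4 := ind_le_one (y + mvk c X y (-1) ∈ A)
  refine ⟨by linarith, ?_⟩
  by_cases h : y + 1 ∉ A ∧ c X (y + 1) ≠ void
  · have : ind (y + mvk c X y 1 ∈ A) = 0 := by
      rw [mvk_one c X y h.2]
      exact ind_false h.1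
    linarith
  · have h1 : y + 1 ∉ A → c X (y + 1) = void := by
      intro h2
      by_contra h3
      exact h ⟨h2, h3⟩
    obtain ⟨h2, h3⟩ := hyy h1
    have : ind (y + mvk c X y (-1) ∈ A) = 0 := by
      rw [mvk_neg c X y h3]
      exact ind_false (by simpa [sub_eq_add_neg] using h2)
    linarith

lemma step {A : Finset ℤ} (hM : 1 ≤ M) (hne : A.Nonempty) (hA : (A.card : ℝ) < M)
    (hv : AllValid c X A) :
    avg (nb A) (pr c (X - 1) A) (fun A' => 16 * gq M A'.card + Kf c M (X - 1) A') + 1 ≤
      16 * gq M A.card + Kf c M X A := by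
  have hK : avg (nb A) (pr c (X - 1) A) (fun A' => Kf c M (X - 1) A') ≤ 3 * M + 2 := by
    rw [← avg_const (nb A) (pr c (X - 1) A) (3 * M + 2)]
    refine avg_mono (pr_mem A) fun A' hA' _ => Kf_le hM ?_
    have := card_sub_le hA'
    linarith
  have hN0 : (0 : ℝ) ≤ A.card := by positivity
  have hS0 := sum_pr_nonneg (c := c) (X := X - 1) A (nb A)
  have hV0 := sum_var_nonneg (c := c) (X := X - 1) A (nb A)
  by_cases hd : Dec c X A
  · -- decreasing case
    rw [avg_add, avg_smul, avg_gq]
    have hS := sum_pr_le_dec hd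
    have hKf : Kf c M X A = 0 := by simp [Kf, hd]
    rw [hKf]
    set S := ∑ y ∈ nb A, pr c (X - 1) A y
    set V := ∑ y ∈ nb A, pr c (X - 1) A y * (1 - pr c (X - 1) A y)
    have hp : 0 ≤ ((A.card : ℝ) - 1 / 2 - S) * (6 * M - (A.card - 1 / 2) - S) := by
      refine mul_nonneg (by linarith) (by linarith)
    unfold gq
    nlinarith
  · have hvl : AllValid c (X - 1) A := by
      intro y hy
      by_contra h
      exact hd ⟨y, hy, h⟩
    by_cases hfl : Full c (X - 1) A
    · -- frozen case
      rw [avg_det (B := A) (fun y hy => mem_nb_self hy)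
        (fun y hy => pr_one_of_frozen hvl hfl hy) (fun y _ hy => pr_zero_of_frozen hfl hy)]
      have key : Kf c M (X - 1) A + 1 ≤ Kf c M X A := by
        by_cases hf : Full c X A
        · have e : Kf c M X A = (nbel c X A : ℝ) + 1 := by simp [Kf, hd, hf]
          rw [e]
          by_cases hd' : Dec c (X - 1) A
          · have e' : Kf c M (X - 1) A = 0 := by simp [Kf, hd']
            rw [e']
            have : (0 : ℝ) ≤ nbel c X A := by positivity
            linarith
          · have e' : Kf c M (X - 1) A = (nbel c (X - 1) A : ℝ) + 1 := by simp [Kf, hd', hfl]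
            rw [e']
            have h1 := nbel_lt hne hv hf hd hd'
            have : (nbel c (X - 1) A : ℝ) + 1 ≤ nbel c X A := by exact_mod_cast h1
            linarith
        · have e : Kf c M X A = 3 * M + 2 := by simp [Kf, hd, hf]
          rw [e]
          have h : (nbel c (X - 1) A : ℝ) ≤ A.card := by exact_mod_cast nbel_le A
          by_cases hd' : Dec c (X - 1) A
          · have e' : Kf c M (X - 1) A = 0 := by simp [Kf, hd']
            rw [e']
            linarith
          · have e' : Kf c M (X - 1) A = (nbel c (X - 1) A : ℝ) + 1 := by simp [Kf, hd', hfl]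
            rw [e']
            linarith
      linarith
    · -- variance case
      have hf : ¬ Full c X A := fun hf => hfl (full_left hv hf hd)
      have e : Kf c M X A = 3 * M + 2 := by simp [Kf, hd, hf]
      rw [e, avg_add, avg_smul, avg_gq]
      obtain ⟨y, hy, hy1, hy2⟩ := exists_var hvl hfl
      have hV : 3 / 16 ≤ ∑ y ∈ nb A, pr c (X - 1) A y * (1 - pr c (X - 1) A y) := by
        have h1 : pr c (X - 1) A y * (1 - pr c (X - 1) A y) ≤
            ∑ y ∈ nb A, pr c (X - 1) A y * (1 - pr c (X - 1) A y) := by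
          refine Finset.single_le_sum
            (f := fun y => pr c (X - 1) A y * (1 - pr c (X - 1) A y))
            (fun z _ => ?_) (mem_nb_self hy)
          have := pr_mem (c := c) (X := X - 1) A z
          exact mul_nonneg this.1 (by linarith)
        nlinarith
      have hS := sum_pr_le_card (c := c) (X := X - 1) A
      set S := ∑ y ∈ nb A, pr c (X - 1) A y
      set V := ∑ y ∈ nb A, pr c (X - 1) A y * (1 - pr c (X - 1) A y)
      have hp : 0 ≤ ((A.card : ℝ) - S) * (6 * M - A.card - S) :=
        mul_nonneg (by linarith) (by linarith)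
      unfold gq
      nlinarith

open Classical in
/-- The survival probability of the backward process. -/
noncomputable def Sv (c : ℤ → ℤ → Inp) : ℕ → ℤ → Finset ℤ → ℝ
  | 0, _, A => if A.Nonempty then 1 else 0
  | n + 1, X, A => avg (nb A) (pr c (X - 1) A) (fun A' => Sv c n (X - 1) A')

lemma Sv_nonneg (n : ℕ) : ∀ (X : ℤ) (A : Finset ℤ), 0 ≤ Sv c n X A := by
  induction n with
  | zero => intro X A; unfold Sv; split_ifs <;> norm_num
  | succ n ih =>
    intro X A
    unfold Sv
    rw [← avg_const (nb A) (pr c (X - 1) A) 0]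
    exact avg_mono (pr_mem A) fun A' _ _ => ih _ _

lemma Sv_le_one (n : ℕ) : ∀ (X : ℤ) (A : Finset ℤ), Sv c n X A ≤ 1 := by
  induction n with
  | zero => intro X A; unfold Sv; split_ifs <;> norm_num
  | succ n ih =>
    intro X A
    unfold Sv
    rw [← avg_const (nb A) (pr c (X - 1) A) 1]
    exact avg_mono (pr_mem A) fun A' _ _ => ih _ _

lemma Sv_empty (n : ℕ) : ∀ X : ℤ, Sv c n X ∅ = 0 := by
  induction n with
  | zero => intro X; simp [Sv]
  | succ n ih =>
    intro X
    unfold Sv
    have : nb (∅ : Finset ℤ) = ∅ := by simp [nb]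
    rw [this, avg_empty, ih]

lemma main_bound (hM : 1 ≤ M) (n : ℕ) : ∀ (X : ℤ) (A : Finset ℤ), AllValid c X A →
    (A.card : ℝ) ≤ 3 * M →
    n * Sv c n X A ≤ n * (A.card / M) + (16 * gq M A.card + Kf c M X A) := by
  induction n with
  | zero =>
    intro X A _ hA
    have h1 := Kf_nonneg (c := c) (X := X) hM A
    have h2 : 0 ≤ gq M A.card := by
      unfold gq
      refine mul_nonneg (by positivity) (by linarith)
    simp only [Nat.cast_zero, zero_mul]
    linarith
  | succ n ih =>
    intro X A hv hA
    have h1 := Kf_nonneg (c := c) (X := X) hM A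
    have h2 : 0 ≤ gq M A.card := by
      unfold gq
      refine mul_nonneg (by positivity) (by linarith)
    have hn0 : (0 : ℝ) ≤ n := by positivity
    have hc0 : (0 : ℝ) ≤ A.card / M := by positivity
    rcases A.eq_empty_or_nonempty with hne | hne
    · rw [hne, Sv_empty, ← hne, mul_zero]
      have : (0 : ℝ) ≤ ((n + 1 : ℕ) : ℝ) * (A.card / M) := by positivity
      linarith
    · by_cases hlt : (A.card : ℝ) < M
      · have e : ((n + 1 : ℕ) : ℝ) * Sv c (n + 1) X A =
            avg (nb A) (pr c (X - 1) A) (fun A' => n * Sv c n (X - 1) A' + Sv c n (X - 1) A') := by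
          have : Sv c (n + 1) X A =
            avg (nb A) (pr c (X - 1) A) (fun A' => Sv c n (X - 1) A') := rfl
          rw [this, ← avg_smul]
          refine avg_congr fun A' _ => ?_
          push_cast
          ring
        have h3 : avg (nb A) (pr c (X - 1) A)
              (fun A' => n * Sv c n (X - 1) A' + Sv c n (X - 1) A') ≤
            avg (nb A) (pr c (X - 1) A) (fun A' => (n / M) * (A'.card : ℝ) +
              ((16 * gq M A'.card + Kf c M (X - 1) A') + 1)) := by
          refine avg_mono (pr_mem A) fun A' hA' hp => ?_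
          have hv' : AllValid c (X - 1) A' := fun y hy => valid_of_pr_ne (hp y hy)
          have hc := card_sub_le hA'
          have h4 := ih (X - 1) A' hv' (by linarith)
          have h5 := Sv_le_one (c := c) n (X - 1) A'
          have e2 : (n : ℝ) / M * (A'.card : ℝ) = n * (A'.card / M) := by ring
          rw [e2]
          linarith
        have e4 : avg (nb A) (pr c (X - 1) A) (fun A' => (n / M) * (A'.card : ℝ) +
              ((16 * gq M A'.card + Kf c M (X - 1) A') + 1)) =
            (n / M) * (∑ y ∈ nb A, pr c (X - 1) A y) + avg (nb A) (pr c (X - 1) A)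
              (fun A' => (16 * gq M A'.card + Kf c M (X - 1) A') + 1) := by
          rw [avg_add, avg_smul, avg_card]
        rw [e4] at h3
        have h6 : avg (nb A) (pr c (X - 1) A)
              (fun A' => (16 * gq M A'.card + Kf c M (X - 1) A') + 1) ≤
            16 * gq M A.card + Kf c M X A := by
          rw [avg_add, avg_const]
          exact step hM hne hlt hv
        have h7 : (n : ℝ) / M * ∑ y ∈ nb A, pr c (X - 1) A y ≤ n / M * A.card :=
          mul_le_mul_of_nonneg_left (sum_pr_le_card A) (by positivity)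
        have e3 : (n : ℝ) / M * A.card = n * (A.card / M) := by ring
        rw [e]
        push_cast
        nlinarith
      · have h3 : 1 ≤ (A.card : ℝ) / M := by
          rw [le_div_iff₀ (by linarith)]
          linarith
        have h4 := Sv_le_one (c := c) (n + 1) X A
        have h5 : ((n + 1 : ℕ) : ℝ) * Sv c (n + 1) X A ≤ ((n + 1 : ℕ) : ℝ) * (A.card / M) :=
          mul_le_mul_of_nonneg_left (by linarith) (by positivity)
        linarith

lemma survival (n : ℕ) (hn : 1 ≤ n) (X y : ℤ) (hv : Valid c X y) :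
    Sv c n X {y} ≤ 102 / Real.sqrt n := by
  have hn1 : (1 : ℝ) ≤ n := by exact_mod_cast hn
  have hM : 1 ≤ Real.sqrt n := by
    rw [Real.one_le_sqrt]; exact hn1
  have hA : (({y} : Finset ℤ).card : ℝ) = 1 := by simp
  have h := main_bound (c := c) hM n X {y}
    (by intro z hz; rw [Finset.mem_singleton] at hz; rw [hz]; exact hv)
    (by rw [hA]; linarith)
  have hK := Kf_le (c := c) (X := X) hM (A := {y}) (by rw [hA]; linarith)
  rw [hA] at h
  have hs : Real.sqrt n * Real.sqrt n = n := Real.mul_self_sqrt (by positivity)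
  have hpos : 0 < Real.sqrt n := by linarith
  have e1 : (n : ℝ) * (1 / Real.sqrt n) = Real.sqrt n := by
    rw [mul_one_div, div_eq_iff hpos.ne']
    exact hs.symm
  rw [e1] at h
  unfold gq at h
  have h2 : (n : ℝ) * Sv c n X {y} ≤ 102 * Real.sqrt n := by nlinarith
  rw [le_div_iff₀ hpos]
  have h3 : (Sv c n X {y} * Real.sqrt n) * Real.sqrt n ≤ 102 * Real.sqrt n := by
    rw [mul_assoc, hs]
    linarith
  exact le_of_mul_le_mul_right h3 hpos

end MP7172bf
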