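import Pool.Agent.H.MP_7172bf_co.helper55.Defs
import Pool.Agent.H.MP_7172bf_co.helper55.Potential
import Pool.Agent.H.MP_7172bf_co.helper55.Flowing

/-!
# The survival probability for independent random strings
-/

namespace MP7172bf

open MeasureTheory ProbabilityTheory Inp

instance : IsProbabilityMeasure coin := by unfold coin; infer_instance
instance : IsProbabilityMeasure strM := by unfold strM; infer_instance
instance (d : ℕ) : IsProbabilityMeasure (rnd d) := by unfold rnd; infer_instance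

/-- The random choice extracted from the first two bits of a string. -/
def raw (s : Str) : ℤ :=
  if s 0 = false ∧ s 1 = false then 1 else if s 0 = true ∧ s 1 = true then -1 else 0

def raw2 (p : Bool × Bool) : ℤ :=
  if p.1 = false ∧ p.2 = false then 1 else if p.1 = true ∧ p.2 = true then -1 else 0

lemma raw_eq : raw = raw2 ∘ fun s : Str => (s 0, s 1) := rfl

lemma measurable_raw : Measurable raw := by
  rw [raw_eq]
  exact (measurable_of_countable raw2).comp (by fun_prop)

lemma coin_singleton (b : Bool) : coin {b} = 1 / 2 := by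
  unfold coin
  rw [PMF.toMeasure_apply_singleton _ _ (measurableSet_singleton b)]
  simp

lemma strM_two (Q : Bool × Bool → Prop) :
    strM {s | Q (s 0, s 1)} = ∑ p : Bool × Bool, ENNReal.ofReal (1 / 4 * ind (Q p)) := by
  classical
  have h1 : strM {s | Q (s 0, s 1)} = (strM.map fun s : Str => (s 0, s 1)) {p | Q p} := by
    rw [Measure.map_apply (by fun_prop) (Set.toFinite _).measurableSet]
    rfl
  have h2 : (strM.map fun s : Str => (s 0, s 1)) = coin.prod coin := by
    unfold strM
    exact Measure.infinitePi_map_eval_prod (by norm_num)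
  rw [h1, h2]
  have h3 : ({p | Q p} : Set (Bool × Bool)) = ((Finset.univ.filter Q : Finset _) : Set _) := by
    ext p; simp
  rw [h3, ← sum_measure_singleton, Finset.sum_filter]
  refine Finset.sum_congr rfl fun p _ => ?_
  have h4 : (coin.prod coin) {p} = ENNReal.ofReal (1 / 4) := by
    obtain ⟨a, b⟩ := p
    rw [← Set.singleton_prod_singleton, Measure.prod_prod, coin_singleton, coin_singleton]
    rw [← ENNReal.ofReal_one, ← ENNReal.ofReal_ofNat 2, ← ENNReal.ofReal_div_of_pos (by norm_num),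
      ← ENNReal.ofReal_mul (by norm_num)]
    norm_num
  by_cases h : Q p
  · rw [if_pos h, h4, ind_true h, mul_one]
  · rw [if_neg h, ind_false h]
    simp

lemma strM_raw (P : ℤ → Prop) :
    strM {s | P (raw s)} =
      ENNReal.ofReal (1 / 4 * ind (P 1) + 1 / 4 * ind (P (-1)) + 1 / 2 * ind (P 0)) := by
  have h := strM_two fun p => P (raw2 p)
  have e : {s : Str | P (raw s)} = {s : Str | P (raw2 (s 0, s 1))} := rfl
  rw [e, h, Fintype.sum_prod_type, Fintype.sum_bool, Fintype.sum_bool, Fintype.sum_bool]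
  have r1 : raw2 (true, true) = -1 := rfl
  have r2 : raw2 (true, false) = 0 := rfl
  have r3 : raw2 (false, true) = 0 := rfl
  have r4 : raw2 (false, false) = 1 := rfl
  rw [r1, r2, r3, r4]
  have a1 := ind_nonneg (P 1)
  have a2 := ind_nonneg (P (-1))
  have a3 := ind_nonneg (P 0)
  rw [← ENNReal.ofReal_add (by positivity) (by positivity),
    ← ENNReal.ofReal_add (by positivity) (by positivity),
    ← ENNReal.ofReal_add (by positivity) (by positivity)]
  congr 1
  ring

/-- The random choices. -/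
def rr (ω : Pt 2 → Str) (x y : ℤ) : ℤ := raw (ω ![x, y])

/-- The information at the vertex `u`. -/
@[reducible] def inf (u : Pt 2) : MeasurableSpace (Pt 2 → Str) :=
  MeasurableSpace.comap (fun ω => ω u) inferInstance

/-- The information at the vertices in `S`. -/
@[reducible] def infS (S : Set (Pt 2)) : MeasurableSpace (Pt 2 → Str) := ⨆ u ∈ S, inf u

lemma indep_infS {S T : Set (Pt 2)} (h : Disjoint S T) : Indep (infS S) (infS T) (rnd 2) := by
  unfold infS
  refine indep_iSup_of_disjoint (m := inf) ?_ ?_ h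
  · intro u
    exact (measurable_pi_apply u).comap_le
  · have : iIndepFun (fun (u : Pt 2) (ω : Pt 2 → Str) => ω u) (rnd 2) := by
      unfold rnd
      exact iIndepFun_infinitePi (X := fun _ s => s) (fun _ => measurable_id)
    exact this

lemma meas_raw {S : Set (Pt 2)} {u : Pt 2} (hu : u ∈ S) (Q : ℤ → Prop) :
    MeasurableSet[infS S] {ω | Q (raw (ω u))} := by
  have h : MeasurableSet[inf u] {ω : Pt 2 → Str | Q (raw (ω u))} :=
    ⟨{s | Q (raw s)}, measurable_raw (MeasurableSet.of_discrete (s := {k | Q k})), rfl⟩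
  exact (le_iSup₂ (f := fun u (_ : u ∈ S) => inf u) u hu) _ h

lemma infS_mono {S T : Set (Pt 2)} (h : S ⊆ T) : infS S ≤ infS T :=
  biSup_mono fun _ hu => h hu

lemma meas_alive (c : ℤ → ℤ → Inp) (n : ℕ) : ∀ x y : ℤ,
    MeasurableSet[infS {u | u 0 < x}] {ω | Alive c (rr ω) n x y} := by
  induction n with
  | zero =>
    intro x y
    exact @MeasurableSet.const _ (infS {u | u 0 < x}) _
  | succ n ih =>
    intro x y
    have hmono : infS {u | u 0 < x - 1} ≤ infS {u | u 0 < x} :=
      infS_mono fun u hu => by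
        have : u 0 < x - 1 := hu
        show u 0 < x
        omega
    have hu : ∀ y, (![x - 1, y] : Pt 2) ∈ {u : Pt 2 | u 0 < x} := by
      intro y
      show (![x - 1, y] : Pt 2) 0 < x
      simp
    have key : ∀ (y k : ℤ), MeasurableSet[infS {u | u 0 < x}]
        {ω | mv c (rr ω) (x - 1) y = k ∧ Alive c (rr ω) n (x - 1) y} := by
      intro y k
      refine @MeasurableSet.inter _ (infS {u | u 0 < x}) {ω | mv c (rr ω) (x - 1) y = k} _ ?_ ?_
      · exact meas_raw (hu y) fun z => mvk c (x - 1) y z = k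
      · exact hmono _ (ih (x - 1) y)
    have e : {ω | Alive c (rr ω) (n + 1) x y} =
        {ω : Pt 2 → Str | Valid c x y} ∩
        ({ω | mv c (rr ω) (x - 1) (y - 1) = 1 ∧ Alive c (rr ω) n (x - 1) (y - 1)} ∪
        ({ω | mv c (rr ω) (x - 1) y = 0 ∧ Alive c (rr ω) n (x - 1) y} ∪
        {ω | mv c (rr ω) (x - 1) (y + 1) = -1 ∧ Alive c (rr ω) n (x - 1) (y + 1)})) := by
      ext ω
      rfl
    rw [e]
    refine @MeasurableSet.inter _ (infS {u | u 0 < x}) _ _ ?_ ?_
    · exact @MeasurableSet.const _ (infS {u | u 0 < x}) _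
    · exact @MeasurableSet.union _ (infS {u | u 0 < x}) _ _ (key _ _)
        (@MeasurableSet.union _ (infS {u | u 0 < x}) _ _ (key _ _) (key _ _))

/-- Some vertex of `A` at column `X` is alive. -/
def EE (c : ℤ → ℤ → Inp) (n : ℕ) (X : ℤ) (A : Finset ℤ) : Set (Pt 2 → Str) :=
  {ω | ∃ y ∈ A, Alive c (rr ω) n X y}

lemma meas_EE (c : ℤ → ℤ → Inp) (n : ℕ) (X : ℤ) (A : Finset ℤ) :
    MeasurableSet[infS {u | u 0 < X}] (EE c n X A) := by
  have e : EE c n X A = ⋃ y ∈ A, {ω | Alive c (rr ω) n X y} := by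
    ext ω
    simp [EE]
  rw [e]
  exact @MeasurableSet.biUnion _ _ (infS {u | u 0 < X}) _ _ (A.countable_toSet)
    fun y _ => meas_alive c n X y

/-- The set of vertices of column `X` moving into `A` is `A'`. -/
def Bk (c : ℤ → ℤ → Inp) (X : ℤ) (A A' : Finset ℤ) : Set (Pt 2 → Str) :=
  {ω | ∀ y ∈ nb A, (y ∈ A' ↔ (Valid c X y ∧ y + mvk c X y (raw (ω ![X, y])) ∈ A))}

lemma meas_Bk (c : ℤ → ℤ → Inp) (X : ℤ) (A A' : Finset ℤ) :
    MeasurableSet[infS {u | u 0 = X}] (Bk c X A A') := by
  have e : Bk c X A A' = ⋂ y ∈ nb A, {ω | (y ∈ A' ↔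
      (Valid c X y ∧ y + mvk c X y (raw (ω ![X, y])) ∈ A))} := by
    ext ω
    simp [Bk]
  rw [e]
  refine @MeasurableSet.biInter _ _ (infS {u | u 0 = X}) _ _ ((nb A).countable_toSet) fun y _ => ?_
  exact meas_raw (u := ![X, y]) (by simp) fun z => (y ∈ A' ↔ (Valid c X y ∧ y + mvk c X y z ∈ A))

lemma rnd_column (X : ℤ) (S : Finset ℤ) (t : ℤ → Set Str) (ht : ∀ y, MeasurableSet (t y)) :
    rnd 2 {ω | ∀ y ∈ S, ω ![X, y] ∈ t y} = ∏ y ∈ S, strM (t y) := by
  classical
  have hinj : Function.Injective fun y : ℤ => (![X, y] : Pt 2) := by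
    intro a b h
    have := congrFun h 1
    simpa using this
  have e : {ω : Pt 2 → Str | ∀ y ∈ S, ω ![X, y] ∈ t y} =
      Set.pi ((S.image fun y : ℤ => (![X, y] : Pt 2) : Finset (Pt 2)) : Set (Pt 2))
        (fun u => t (u 1)) := by
    ext ω
    simp [Set.mem_pi]
  rw [e]
  unfold rnd
  rw [Measure.infinitePi_pi _ (fun u _ => ht (u 1)), Finset.prod_image (fun a _ b _ h => hinj h)]
  rfl

lemma rnd_Bk (c : ℤ → ℤ → Inp) (X : ℤ) (A A' : Finset ℤ) :
    rnd 2 (Bk c X A A') = ENNReal.ofReal (wt (nb A) (pr c X A) A') := by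
  have e : Bk c X A A' = {ω | ∀ y ∈ nb A, ω ![X, y] ∈ {s : Str | (y ∈ A' ↔
      (Valid c X y ∧ y + mvk c X y (raw s) ∈ A))}} := rfl
  rw [e, rnd_column]
  · unfold wt
    rw [ENNReal.ofReal_prod_of_nonneg]
    · refine Finset.prod_congr rfl fun y _ => ?_
      rw [strM_raw fun z => (y ∈ A' ↔ (Valid c X y ∧ y + mvk c X y z ∈ A))]
      congr 1
      unfold pr
      by_cases hy : y ∈ A' <;> by_cases hv : Valid c X y
      · simp [hy, hv]
      · simp [hy, hv, ind]
      · simp only [hy, hv, true_and, false_iff, if_true, if_false]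
        have hn : ∀ P : Prop, ind (¬ P) = 1 - ind P := by
          intro P
          by_cases h : P <;> simp [ind, h]
        rw [hn, hn, hn]
        ring
      · simp [hy, hv, ind]
        norm_num
    · intro y _
      have := pr_mem (c := c) (X := X) A y
      split_ifs <;> linarith
  · intro y
    exact measurable_raw (MeasurableSet.of_discrete
      (s := {z | (y ∈ A' ↔ (Valid c X y ∧ y + mvk c X y z ∈ A))}))

lemma EE_subset (c : ℤ → ℤ → Inp) (n : ℕ) (X : ℤ) (A : Finset ℤ) :
    EE c (n + 1) X A ⊆ ⋃ A' ∈ (nb A).powerset, (Bk c (X - 1) A A' ∩ EE c n (X - 1) A') := by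
  classical
  intro ω hω
  obtain ⟨y, hy, hal⟩ := hω
  set A' := (nb A).filter fun z => Valid c (X - 1) z ∧
    z + mvk c (X - 1) z (raw (ω ![X - 1, z])) ∈ A with hA'
  rw [Set.mem_iUnion₂]
  refine ⟨A', Finset.mem_powerset.2 (Finset.filter_subset _ _), ?_, ?_⟩
  · intro z hz
    rw [hA', Finset.mem_filter]
    exact ⟨fun h => h.2, fun h => ⟨hz, h⟩⟩
  · rcases hal.2 with ⟨h1, h2⟩ | ⟨h1, h2⟩ | ⟨h1, h2⟩
    · refine ⟨y - 1, ?_, h2⟩
      rw [hA', Finset.mem_filter]
      refine ⟨mem_nb_down hy, h2.valid, ?_⟩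
      have h3 : mvk c (X - 1) (y - 1) (raw (ω ![X - 1, y - 1])) = 1 := h1
      rw [h3]
      simpa using hy
    · refine ⟨y, ?_, h2⟩
      rw [hA', Finset.mem_filter]
      refine ⟨mem_nb_self hy, h2.valid, ?_⟩
      have h3 : mvk c (X - 1) y (raw (ω ![X - 1, y])) = 0 := h1
      rw [h3]
      simpa using hy
    · refine ⟨y + 1, ?_, h2⟩
      rw [hA', Finset.mem_filter]
      refine ⟨mem_nb_up hy, h2.valid, ?_⟩
      have h3 : mvk c (X - 1) (y + 1) (raw (ω ![X - 1, y + 1])) = -1 := h1
      rw [h3]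
      simpa using hy

lemma rnd_EE (c : ℤ → ℤ → Inp) (n : ℕ) : ∀ (X : ℤ) (A : Finset ℤ),
    rnd 2 (EE c n X A) ≤ ENNReal.ofReal (Sv c n X A) := by
  induction n with
  | zero =>
    intro X A
    unfold Sv
    split_ifs with h
    · rw [ENNReal.ofReal_one]
      exact prob_le_one
    · rw [Finset.not_nonempty_iff_eq_empty] at h
      have : EE c 0 X A = ∅ := by
        rw [h]
        ext ω
        simp [EE]
      rw [this]
      simp
  | succ n ih =>
    intro X A
    have hdisj : Disjoint {u : Pt 2 | u 0 = X - 1} {u : Pt 2 | u 0 < X - 1} := by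
      rw [Set.disjoint_left]
      intro u hu hu'
      have h1 : u 0 = X - 1 := hu
      have h2 : u 0 < X - 1 := hu'
      omega
    have hind := (Indep_iff _ _ _).1 (indep_infS hdisj)
    calc rnd 2 (EE c (n + 1) X A)
        ≤ rnd 2 (⋃ A' ∈ (nb A).powerset, (Bk c (X - 1) A A' ∩ EE c n (X - 1) A')) :=
          measure_mono (EE_subset c n X A)
      _ ≤ ∑ A' ∈ (nb A).powerset, rnd 2 (Bk c (X - 1) A A' ∩ EE c n (X - 1) A') :=
          measure_biUnion_finset_le _ _
      _ = ∑ A' ∈ (nb A).powerset, rnd 2 (Bk c (X - 1) A A') * rnd 2 (EE c n (X - 1) A') := by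
          refine Finset.sum_congr rfl fun A' _ => ?_
          exact hind _ _ (meas_Bk c (X - 1) A A') (meas_EE c n (X - 1) A')
      _ ≤ ∑ A' ∈ (nb A).powerset,
            ENNReal.ofReal (wt (nb A) (pr c (X - 1) A) A') * ENNReal.ofReal (Sv c n (X - 1) A') := by
          refine Finset.sum_le_sum fun A' _ => ?_
          rw [rnd_Bk]
          exact mul_le_mul_right (ih (X - 1) A') _
      _ = ENNReal.ofReal (Sv c (n + 1) X A) := by
          have e : Sv c (n + 1) X A = ∑ A' ∈ (nb A).powerset,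
            wt (nb A) (pr c (X - 1) A) A' * Sv c n (X - 1) A' := rfl
          rw [e, ENNReal.ofReal_sum_of_nonneg]
          · refine Finset.sum_congr rfl fun A' _ => ?_
            rw [ENNReal.ofReal_mul (wt_nonneg (pr_mem A) A')]
          · intro A' _
            exact mul_nonneg (wt_nonneg (pr_mem A) A') (Sv_nonneg n _ _)

/-- The tail bound for the backward process. -/
lemma rnd_alive (c : ℤ → ℤ → Inp) (n : ℕ) (hn : 1 ≤ n) (x y : ℤ) :
    rnd 2 {ω | Alive c (rr ω) n x y} ≤ ENNReal.ofReal (102 / Real.sqrt n) := by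
  by_cases hv : Valid c x y
  · refine le_trans (measure_mono ?_) ((rnd_EE c n x {y}).trans
      (ENNReal.ofReal_le_ofReal (survival n hn x y hv)))
    intro ω hω
    exact ⟨y, Finset.mem_singleton_self y, hω⟩
  · have : {ω | Alive c (rr ω) n x y} = ∅ := by
      ext ω
      simp only [Set.mem_ofPred_eq, Set.mem_empty_iff_false, iff_false]
      exact fun h => hv h.valid
    rw [this]
    simp

end MP7172bf
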