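import Pool.Agent.H.MP_7172bf_co.helper55.Flowing

/-!
# The perfect input and the conservation of the flow
-/

namespace MP7172bf

open Inp Mov

/-- Height and head position of column `x` of the perfect input. -/
def st : ℕ → ℕ × ℕ
  | 0 => (1, 0)
  | x + 1 => if (st x).2 < (st x).1 then ((st x).1, (st x).2 + 1) else ((st x).1 + 1, 0)

lemma st_succ (x : ℕ) : st (x + 1) =
    if (st x).2 < (st x).1 then ((st x).1, (st x).2 + 1) else ((st x).1 + 1, 0) := rfl

lemma st_inv (x : ℕ) : (st x).2 ≤ (st x).1 ∧ 1 ≤ (st x).1 ∧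
    2 * x + 2 = (st x).1 * (st x).1 + (st x).1 + 2 * (st x).2 := by
  induction x with
  | zero => simp [st]
  | succ x ih =>
    obtain ⟨h1, h2, h3⟩ := ih
    rw [st_succ]
    by_cases h : (st x).2 < (st x).1
    · rw [if_pos h]
      refine ⟨?_, h2, ?_⟩
      · show (st x).2 + 1 ≤ (st x).1
        omega
      · show 2 * (x + 1) + 2 = (st x).1 * (st x).1 + (st x).1 + 2 * ((st x).2 + 1)
        linarith
    · rw [if_neg h]
      have h4 : (st x).2 = (st x).1 := by omega
      refine ⟨Nat.zero_le _, ?_, ?_⟩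
      · show 1 ≤ (st x).1 + 1
        omega
      · show 2 * (x + 1) + 2 = ((st x).1 + 1) * ((st x).1 + 1) + ((st x).1 + 1) + 2 * 0
        rw [h4] at h3
        linarith

lemma st_sq (x : ℕ) : (st x).1 * (st x).1 ≤ 2 * x + 2 := by
  have := (st_inv x).2.2
  omega

/-- The labels of a column with height `h` and head position `k`. -/
def col (h k : ℕ) (y : ℤ) : Inp :=
  if y < 0 ∨ (h : ℤ) ≤ y then void else if k = 0 then rest
  else if y < (k : ℤ) - 1 then below else if y = (k : ℤ) - 1 then head else above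

lemma col_void (h k : ℕ) (y : ℤ) : col h k y = void ↔ (y < 0 ∨ (h : ℤ) ≤ y) := by
  unfold col
  split_ifs <;> simp_all

lemma col_below (h k : ℕ) (y : ℤ) :
    col h k y = below ↔ (0 ≤ y ∧ y < (h : ℤ) ∧ k ≠ 0 ∧ y < (k : ℤ) - 1) := by
  unfold col
  split_ifs <;> simp <;> omega

lemma col_head (h k : ℕ) (y : ℤ) :
    col h k y = head ↔ (0 ≤ y ∧ y < (h : ℤ) ∧ k ≠ 0 ∧ y = (k : ℤ) - 1) := by
  unfold col
  split_ifs <;> simp <;> omega

lemma col_above (h k : ℕ) (y : ℤ) :
    col h k y = above ↔ (0 ≤ y ∧ y < (h : ℤ) ∧ k ≠ 0 ∧ (k : ℤ) - 1 < y) := by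
  unfold col
  split_ifs <;> simp <;> omega

lemma col_rest (h k : ℕ) (y : ℤ) :
    col h k y = rest ↔ (0 ≤ y ∧ y < (h : ℤ) ∧ k = 0) := by
  unfold col
  split_ifs <;> simp <;> omega

lemma ok_col (h k : ℕ) (hk : k < h) (y : ℤ) (h0 : 0 ≤ y) (h1 : y < h) :
    Ok (col h (k + 1) y) (col h (k + 1) (y + 1)) (col h (k + 1) (y - 1))
      (col h k y) (col h k (y + 1)) (col h k (y - 1)) := by
  unfold Ok
  simp only [ne_eq, col_void, col_below, col_head, col_above, col_rest, Nat.cast_add,
    Nat.cast_one]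
  refine ⟨?_, ?_, ?_, ?_, ?_, ?_, ?_, ?_, ?_⟩ <;> intros <;> omega

lemma ok_col' (h : ℕ) (hh : 1 ≤ h) (y : ℤ) (h0 : 0 ≤ y) (h1 : y < (h + 1 : ℕ)) :
    Ok (col (h + 1) 0 y) (col (h + 1) 0 (y + 1)) (col (h + 1) 0 (y - 1))
      (col h h y) (col h h (y + 1)) (col h h (y - 1)) := by
  unfold Ok
  simp only [ne_eq, col_void, col_below, col_head, col_above, col_rest, Nat.cast_add,
    Nat.cast_one, not_true_eq_false, false_and, and_false, false_or, or_false, and_true] at h1 ⊢
  refine ⟨?_, ?_, ?_, ?_, ?_, ?_, ?_, ?_, ?_⟩ <;> intros <;> first | omega | tauto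

/-- The perfect input with seed `b`. -/
def per (b : Bool) (x y : ℤ) : Inp :=
  if x < 0 then void
  else if x = 0 then (if y = 0 then (if b = true then seed1 else seed0) else void)
  else col (st x.toNat).1 (st x.toNat).2 y

lemma per_pos (b : Bool) (m : ℕ) (y : ℤ) :
    per b ((m : ℤ) + 1) y = col (st (m + 1)).1 (st (m + 1)).2 y := by
  unfold per
  have h1 : ¬ ((m : ℤ) + 1 < 0) := by omega
  have h2 : ¬ ((m : ℤ) + 1 = 0) := by omega
  have h3 : ((m : ℤ) + 1).toNat = m + 1 := by omega
  rw [if_neg h1, if_neg h2, h3]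

lemma per_zero (b : Bool) (y : ℤ) :
    per b 0 y = if y = 0 then (if b = true then seed1 else seed0) else void := by
  unfold per
  rw [if_neg (by norm_num), if_pos rfl]

lemma per_void (b : Bool) (m : ℕ) (y : ℤ) :
    per b m y = void ↔ (y < 0 ∨ ((st m).1 : ℤ) ≤ y) := by
  cases m with
  | zero =>
    rw [Nat.cast_zero, per_zero]
    have : (st 0).1 = 1 := rfl
    rw [this]
    by_cases h : y = 0
    · rw [if_pos h, h]
      cases b <;> simp
    · rw [if_neg h]
      simp
      omega
  | succ m =>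
    push_cast
    rw [per_pos, col_void]

/-- The perfect input depends on `b` only at the origin. -/
lemma per_eq (x y : ℤ) (h : x ≠ 0) : per false x y = per true x y := by
  unfold per
  rw [if_neg h, if_neg h]

lemma per_valid (b : Bool) (m : ℕ) (y : ℤ) (h : per b ((m : ℤ) + 1) y ≠ void) :
    Valid (per b) ((m : ℤ) + 1) y := by
  have hin : 0 ≤ y ∧ y < ((st (m + 1)).1 : ℤ) := by
    rw [per_pos, Ne, col_void] at h
    omega
  have e : ((m : ℤ) + 1) - 1 = m := by ring
  unfold Valid
  rw [e, per_pos, per_pos, per_pos]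
  obtain ⟨i1, i2, -⟩ := st_inv m
  cases m with
  | zero =>
    have e1 : st (0 + 1) = (1, 1) := rfl
    rw [e1] at hin ⊢
    have hy : y = 0 := by
      have := hin.2
      push_cast at this
      omega
    rw [Nat.cast_zero, per_zero, per_zero, per_zero, hy]
    cases b
    · simp [Ok, col]
    · simp [Ok, col]
  | succ m =>
    push_cast
    rw [per_pos, per_pos, per_pos]
    rw [st_succ (m + 1)] at hin ⊢
    by_cases hlt : (st (m + 1)).2 < (st (m + 1)).1
    · rw [if_pos hlt] at hin ⊢
      exact ok_col _ _ hlt y hin.1 hin.2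
    · rw [if_neg hlt] at hin ⊢
      have h4 : (st (m + 1)).2 = (st (m + 1)).1 := by omega
      rw [h4]
      exact ok_col' _ i2 y hin.1 hin.2

/-- Indicator in `ZMod 2`. -/
def zi (b : Bool) : ZMod 2 := if b = true then 1 else 0

lemma zi_xor (a b : Bool) : zi (xor a b) = zi a + zi b := by
  revert a b
  decide

/-- The total flow through column `x`. -/
noncomputable def FF (o : ℤ → ℤ → Mov) (x : ℤ) : ZMod 2 := ∑ᶠ y : ℤ, zi (decide (o x y ≠ zero))

lemma flow_next {b : Bool} {o : ℤ → ℤ → Mov} (hcon : ∀ x y, Con (per b) o x y) (m : ℕ) (y : ℤ) :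
    zi (decide (o ((m : ℤ) + 1) y ≠ zero)) =
      zi (decide (o m (y - 1) = up)) + (zi (decide (o m y = straight)) +
        zi (decide (o m (y + 1) = down))) := by
  have e : ((m : ℤ) + 1) - 1 = m := by ring
  by_cases hv : per b ((m : ℤ) + 1) y = void
  · have h1 := (hcon ((m : ℤ) + 1) y).2.2.1 hv
    rw [h1]
    have hv0 : per b (m : ℤ) y = void := by
      have hv' : y < 0 ∨ ((st (m + 1)).1 : ℤ) ≤ y := by
        have := (per_void b (m + 1) y)
        push_cast at this
        exact this.1 hv
      rw [per_void]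
      rcases hv' with h | h
      · exact Or.inl h
      · right
        have : (st m).1 ≤ (st (m + 1)).1 := by
          rw [st_succ]
          split_ifs
          · exact le_rfl
          · show (st m).1 ≤ (st m).1 + 1
            omega
        omega
    have h2 := (hcon m y).2.2.1 hv0
    have h3 : o m (y - 1) ≠ up := by
      intro h
      have := (hcon m (y - 1)).2.2.2.1 h
      have e1 : y - 1 + 1 = y := by ring
      rw [e1] at this
      exact this hv0
    have h4 : o m (y + 1) ≠ down := by
      intro h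
      have := (hcon m (y + 1)).2.2.2.2.1 h
      have e1 : y + 1 - 1 = y := by ring
      rw [e1] at this
      exact this hv0
    rw [h2]
    simp [h3, h4, zi]
  · have h1 := (hcon ((m : ℤ) + 1) y).2.2.2.2.2 (per_valid b m y hv)
    rw [e] at h1
    rw [h1, zi_xor, zi_xor]

lemma flow_split (o : Mov) : zi (decide (o ≠ zero)) =
    zi (decide (o = up)) + (zi (decide (o = straight)) + zi (decide (o = down))) := by
  cases o <;> simp [zi]

lemma supp_fin {b : Bool} {o : ℤ → ℤ → Mov} (hcon : ∀ x y, Con (per b) o x y) (m : ℕ)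
    (a : Mov) (ha : a ≠ zero) :
    (Function.support fun y : ℤ => zi (decide (o m y = a))).Finite := by
  refine Set.Finite.subset (Set.finite_Ico (0 : ℤ) ((st m).1 : ℤ)) ?_
  intro y hy
  rw [Set.mem_Ico]
  by_contra hn
  have hv : per b (m : ℤ) y = void := by
    rw [per_void]
    omega
  have h1 := (hcon m y).2.2.1 hv
  apply hy
  show zi (decide (o m y = a)) = 0
  rw [h1]
  have : ¬ (zero = a) := fun h => ha h.symm
  simp [zi, this]

lemma FF_succ {b : Bool} {o : ℤ → ℤ → Mov} (hcon : ∀ x y, Con (per b) o x y) (m : ℕ) :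
    FF o ((m : ℤ) + 1) = FF o m := by
  have s1 := supp_fin hcon m up (by decide)
  have s2 := supp_fin hcon m straight (by decide)
  have s3 := supp_fin hcon m down (by decide)
  have t1 : (Function.support fun y : ℤ => zi (decide (o m (y - 1) = up))).Finite := by
    have := s1.preimage (f := fun y : ℤ => y - 1) (by
      intro a _ b _ h
      simpa using h)
    exact this
  have t3 : (Function.support fun y : ℤ => zi (decide (o m (y + 1) = down))).Finite := by
    have := s3.preimage (f := fun y : ℤ => y + 1) (by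
      intro a _ b _ h
      simpa using h)
    exact this
  unfold FF
  have e1 : (∑ᶠ y : ℤ, zi (decide (o ((m : ℤ) + 1) y ≠ zero))) =
      ∑ᶠ y : ℤ, (zi (decide (o m (y - 1) = up)) + (zi (decide (o m y = straight)) +
        zi (decide (o m (y + 1) = down)))) :=
    finsum_congr fun y => flow_next hcon m y
  have e2 : (∑ᶠ y : ℤ, zi (decide (o m y ≠ zero))) =
      ∑ᶠ y : ℤ, (zi (decide (o m y = up)) + (zi (decide (o m y = straight)) +
        zi (decide (o m y = down)))) :=
    finsum_congr fun y => flow_split _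
  rw [e1, e2, finsum_add_distrib t1 ((s2.union t3).subset (Function.support_add _ _)),
    finsum_add_distrib s2 t3, finsum_add_distrib s1 ((s2.union s3).subset
      (Function.support_add _ _)), finsum_add_distrib s2 s3]
  have e3 : (∑ᶠ y : ℤ, zi (decide (o m (y - 1) = up))) = ∑ᶠ y : ℤ, zi (decide (o m y = up)) :=
    finsum_comp_equiv (Equiv.subRight (1 : ℤ)) (f := fun y => zi (decide (o m y = up)))
  have e4 : (∑ᶠ y : ℤ, zi (decide (o m (y + 1) = down))) =
      ∑ᶠ y : ℤ, zi (decide (o m y = down)) :=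
    finsum_comp_equiv (Equiv.addRight (1 : ℤ)) (f := fun y => zi (decide (o m y = down)))
  rw [e3, e4]

lemma FF_zero {b : Bool} {o : ℤ → ℤ → Mov} (hcon : ∀ x y, Con (per b) o x y) :
    FF o 0 = zi b := by
  unfold FF
  rw [finsum_eq_single _ (0 : ℤ)]
  · cases b
    · have : per false 0 0 = seed0 := by rw [per_zero]; simp
      rw [(hcon 0 0).2.1 this]
      simp [zi]
    · have : per true 0 0 = seed1 := by rw [per_zero]; simp
      have h := (hcon 0 0).1 this
      simp [zi, h]
  · intro y hy
    have : per b 0 y = void := by rw [per_zero, if_neg hy]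
    rw [(hcon 0 y).2.2.1 this]
    simp [zi]

lemma FF_eq {b : Bool} {o : ℤ → ℤ → Mov} (hcon : ∀ x y, Con (per b) o x y) (m : ℕ) :
    FF o m = zi b := by
  induction m with
  | zero => exact FF_zero hcon
  | succ m ih =>
    push_cast
    rw [FF_succ hcon, ih]

/-- The outputs for the two perfect inputs differ somewhere in every column. -/
lemma exists_diff {o0 o1 : ℤ → ℤ → Mov} (h0 : ∀ x y, Con (per false) o0 x y)
    (h1 : ∀ x y, Con (per true) o1 x y) (m : ℕ) :
    ∃ y ∈ Finset.Ico (0 : ℤ) ((st m).1 : ℤ), o0 m y ≠ o1 m y := by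
  by_contra hn
  push Not at hn
  have hall : ∀ y : ℤ, o0 m y = o1 m y := by
    intro y
    by_cases hy : y ∈ Finset.Ico (0 : ℤ) ((st m).1 : ℤ)
    · exact hn y hy
    · have hv : ∀ b, per b (m : ℤ) y = void := by
        intro b
        rw [per_void]
        rw [Finset.mem_Ico] at hy
        omega
      rw [(h0 m y).2.2.1 (hv false), (h1 m y).2.2.1 (hv true)]
  have h2 := FF_eq h0 m
  have h3 := FF_eq h1 m
  have h4 : FF o0 m = FF o1 m := by
    unfold FF
    exact finsum_congr fun y => by rw [hall y]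
  rw [h2, h3] at h4
  exact absurd h4 (by decide)

end MP7172bf
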