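import Pool.Agent.H.MP_7172bf_co.helper55.Upper
import Pool.Agent.H.MP_7172bf_co.helper55.Perfect

/-!
# The lower bound for every algorithm
-/

namespace MP7172bf

open MeasureTheory Inp Mov

section general

variable {d : ℕ} {P : LocalProblem d}

lemma look_shift {α : Type} (n : ℕ) (f : Pt d → α) (u : Pt d) :
    look n f u = look n (fun v => f (u + v)) 0 := by
  funext b
  simp [look]

lemma run_shift (A : Algorithm P) (inp : Pt d → P.In) (ω : Pt d → Str) (n : ℕ) (u : Pt d) :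
    A.run inp ω n u = A.run (fun v => inp (u + v)) (fun v => ω (u + v)) n 0 := by
  unfold Algorithm.run
  rw [look_shift]

lemma run_mono (A : Algorithm P) (inp : Pt d → P.In) (ω : Pt d → Str) (u : Pt d) {n m : ℕ}
    (hnm : n ≤ m) {o : P.Out} (h : A.run inp ω n u = some o) : A.run inp ω m u = some o := by
  induction m, hnm using Nat.le_induction with
  | base => exact h
  | succ m _ ih =>
    rw [run_shift] at ih ⊢
    exact A.mono _ _ _ ih

lemma run_unique (A : Algorithm P) (inp : Pt d → P.In) (ω : Pt d → Str) (u : Pt d) {n m : ℕ}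
    {o o' : P.Out} (h : A.run inp ω n u = some o) (h' : A.run inp ω m u = some o') : o = o' := by
  have h1 := run_mono A inp ω u (le_max_left n m) h
  have h2 := run_mono A inp ω u (le_max_right n m) h'
  rw [h1] at h2
  exact Option.some.inj h2

lemma meas_run (A : Algorithm P) (inp : Pt d → P.In) (n : ℕ) (o : Option P.Out) :
    MeasurableSet {ω | A.run inp ω n 0 = o} := by
  have h := A.meas n (fun b => inp (0 + b.1)) o
  have hm : Measurable fun (ω : Pt d → Str) (b : Ball d n) => ω (0 + b.1) :=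
    measurable_pi_iff.2 fun b => measurable_pi_apply _
  exact hm h

lemma meas_exceeds (A : Algorithm P) (inp : Pt d → P.In) (r : ℝ) :
    MeasurableSet {ω | A.Exceeds inp ω 0 r} := by
  have e : {ω | A.Exceeds inp ω 0 r} =
      ⋂ n : ℕ, ⋂ _ : (n : ℝ) ≤ r, {ω | A.run inp ω n 0 = none} := by
    ext ω
    simp [Algorithm.Exceeds]
  rw [e]
  exact MeasurableSet.iInter fun n => MeasurableSet.iInter fun _ => meas_run A inp n none

lemma exceeds_le_tail (A : Algorithm P) (inp : Pt d → P.In) (u : Pt d) (r : ℝ) :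
    rnd d {ω | A.Exceeds inp ω u r} ≤ A.tail r := by
  have hm : Measurable fun (ω : Pt d → Str) (v : Pt d) => ω (u + v) :=
    measurable_pi_iff.2 fun v => measurable_pi_apply _
  have hmap : (rnd d).map (fun (ω : Pt d → Str) (v : Pt d) => ω (u + v)) = rnd d := by
    unfold rnd
    exact Measure.map_infinitePi_infinitePi_of_inj (P := fun _ : Pt d => strM)
      (f := fun v => u + v) (add_right_injective u)
  have e : {ω | A.Exceeds inp ω u r} = (fun (ω : Pt d → Str) (v : Pt d) => ω (u + v)) ⁻¹'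
      {ω | A.Exceeds (fun v => inp (u + v)) ω 0 r} := by
    ext ω
    have : A.Exceeds inp ω u r ↔ A.Exceeds (fun v => inp (u + v)) (fun v => ω (u + v)) 0 r := by
      unfold Algorithm.Exceeds
      refine forall_congr' fun n => ?_
      rw [run_shift A inp ω n u]
    exact this
  rw [e, ← Measure.map_apply hm (meas_exceeds _ _ _), hmap]
  exact le_iSup (fun i : Pt d → P.In => rnd d {ω | A.Exceeds i ω 0 r}) _

lemma tail_anti (A : Algorithm P) {r s : ℝ} (h : r ≤ s) : A.tail s ≤ A.tail r := by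
  unfold Algorithm.tail
  refine iSup_mono fun inp => measure_mono ?_
  intro ω hω n hn
  exact hω n (hn.trans h)

end general

/-- The perfect input as a labelling of the plane. -/
def inpP (b : Bool) (u : Pt 2) : Inp := per b (u 0) (u 1)

lemma look_eq (m n : ℕ) (hn : n ≤ m) (y : ℤ) (ω : Pt 2 → Str) :
    look n (fun v => (inpP false v, ω v)) ![(m : ℤ) + 1, y] =
      look n (fun v => (inpP true v, ω v)) ![(m : ℤ) + 1, y] := by
  funext b
  have hb : (b.1 0).natAbs ≤ n := by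
    refine le_trans ?_ b.2
    exact Finset.single_le_sum (f := fun i => (b.1 i).natAbs) (fun _ _ => Nat.zero_le _)
      (Finset.mem_univ 0)
  have hne : (![(m : ℤ) + 1, y] + b.1) 0 ≠ 0 := by
    show (m : ℤ) + 1 + b.1 0 ≠ 0
    omega
  show (inpP false (![(m : ℤ) + 1, y] + b.1), _) = (inpP true (![(m : ℤ) + 1, y] + b.1), _)
  unfold inpP
  rw [per_eq _ _ hne]

lemma ae_exceeds (A : Algorithm PP) (hA : A.Solves) (m : ℕ) :
    ∀ᵐ ω ∂(rnd 2), ∃ y ∈ Finset.Ico (0 : ℤ) ((st (m + 1)).1 : ℤ),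
      A.Exceeds (inpP false) ω ![(m : ℤ) + 1, y] m := by
  filter_upwards [hA (inpP false), hA (inpP true)] with ω h0 h1
  obtain ⟨o0, hr0, hs0⟩ := h0
  obtain ⟨o1, hr1, hs1⟩ := h1
  have c0 : ∀ x y, Con (per false) (fun a b => o0 ![a, b]) x y := (solves_iff _ _).1 hs0
  have c1 : ∀ x y, Con (per true) (fun a b => o1 ![a, b]) x y := (solves_iff _ _).1 hs1
  obtain ⟨y, hy, hne⟩ := exists_diff c0 c1 (m + 1)
  refine ⟨y, hy, ?_⟩
  have hne' : o0 ![(m : ℤ) + 1, y] ≠ o1 ![(m : ℤ) + 1, y] := by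
    have := hne
    push_cast at this
    exact this
  intro n hn
  have hn' : n ≤ m := by exact_mod_cast hn
  by_contra hcon
  obtain ⟨o, ho⟩ := Option.ne_none_iff_exists'.1 hcon
  obtain ⟨n0, g0⟩ := hr0 ![(m : ℤ) + 1, y]
  obtain ⟨n1, g1⟩ := hr1 ![(m : ℤ) + 1, y]
  have ho' : A.run (inpP true) ω n ![(m : ℤ) + 1, y] = some o := by
    rw [← ho]
    unfold Algorithm.run
    exact congrArg (A.rule n) (look_eq m n hn' y ω).symm
  apply hne'
  rw [← run_unique A _ _ _ ho g0, ← run_unique A _ _ _ ho' g1]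

lemma one_le_tail (A : Algorithm PP) (hA : A.Solves) (m : ℕ) :
    1 ≤ ((st (m + 1)).1 : ENNReal) * A.tail m := by
  have h1 : rnd 2 (⋃ y ∈ Finset.Ico (0 : ℤ) ((st (m + 1)).1 : ℤ),
      {ω | A.Exceeds (inpP false) ω ![(m : ℤ) + 1, y] m}) = 1 := by
    rw [← measure_univ (μ := rnd 2)]
    refine measure_congr (Filter.eventuallyEq_univ.2 ?_)
    filter_upwards [ae_exceeds A hA m] with ω hω
    obtain ⟨y, hy, h⟩ := hω
    exact Set.mem_biUnion (show y ∈ (↑(Finset.Ico (0 : ℤ) ((st (m + 1)).1 : ℤ)) : Set ℤ) from hy) h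
  calc (1 : ENNReal) = _ := h1.symm
    _ ≤ ∑ y ∈ Finset.Ico (0 : ℤ) ((st (m + 1)).1 : ℤ),
        rnd 2 {ω | A.Exceeds (inpP false) ω ![(m : ℤ) + 1, y] m} := measure_biUnion_finset_le _ _
    _ ≤ ∑ _y ∈ Finset.Ico (0 : ℤ) ((st (m + 1)).1 : ℤ), A.tail m :=
        Finset.sum_le_sum fun y _ => exceeds_le_tail A _ _ _
    _ = ((st (m + 1)).1 : ENNReal) * A.tail m := by
        rw [Finset.sum_const, Int.card_Ico, nsmul_eq_mul]
        congr 1

lemma lower (A : Algorithm PP) (hA : A.Solves) :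
    ∃ c : ℝ, 0 < c ∧ ∃ ε₀ : ℝ, 0 < ε₀ ∧ ∀ ε : ℝ, 0 < ε → ε < ε₀ →
      ENNReal.ofReal ε < A.tail (c * (1 / ε) ^ 2) := by
  refine ⟨1 / 8, by norm_num, 1 / 4, by norm_num, fun ε h0 h1 => ?_⟩
  set w := (1 / ε) ^ 2 with hw
  have hinv : 4 < 1 / ε := by
    rw [lt_div_iff₀ h0]; linarith
  have hw1 : 16 < w := by
    rw [hw]; nlinarith
  set m := ⌈1 / 8 * w⌉₊ with hm
  have hm1 : 1 / 8 * w ≤ m := Nat.le_ceil _
  have hm2 : (m : ℝ) < 1 / 8 * w + 1 := Nat.ceil_lt_add_one (by positivity)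
  have hsq := st_sq (m + 1)
  set h := (st (m + 1)).1 with hh
  have hsq' : (h : ℝ) * h ≤ 2 * (m + 1) + 2 := by exact_mod_cast hsq
  have hlt : (h : ℝ) * h < (1 / ε) ^ 2 := by
    rw [← hw]; linarith
  have hlt' : (h : ℝ) < 1 / ε := by
    have h2 : (0 : ℝ) ≤ 1 / ε := by positivity
    by_contra hcon
    push Not at hcon
    nlinarith
  have hprod : (h : ℝ) * ε < 1 := by
    rw [lt_div_iff₀ h0] at hlt'
    exact hlt'
  refine lt_of_lt_of_le ?_ (tail_anti A hm1)
  by_contra hcon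
  push Not at hcon
  have h3 := one_le_tail A hA m
  have h4 : (1 : ENNReal) ≤ ENNReal.ofReal (h * ε) := by
    calc (1 : ENNReal) ≤ (h : ENNReal) * A.tail m := h3
      _ ≤ (h : ENNReal) * ENNReal.ofReal ε := by gcongr
      _ = ENNReal.ofReal (h * ε) := by
          rw [ENNReal.ofReal_mul (by positivity), ENNReal.ofReal_natCast]
  rw [← ENNReal.ofReal_one, ENNReal.ofReal_le_ofReal_iff (by positivity)] at h4
  linarith

end MP7172bf
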