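import Pool.Agent.H.MP_7172bf_co.helper55.Avg
import Pool.Agent.H.MP_7172bf_co.helper55.Gadget

/-!
# One step of the backward process
-/

namespace MP7172bf

open Inp

/-- The vertical move of the vertex `(x, y)` when its random choice is `k`. -/
def mvk (c : ℤ → ℤ → Inp) (x y k : ℤ) : ℤ :=
  if k = 1 ∧ c x (y + 1) ≠ void then 1 else if k = -1 ∧ c x (y - 1) ≠ void then -1 else 0

/-- `A` together with the neighbours of its elements. -/
def nb (A : Finset ℤ) : Finset ℤ := A ∪ (A.image (fun y => y + 1) ∪ A.image (fun y => y - 1))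

lemma mem_nb_self {A : Finset ℤ} {y : ℤ} (h : y ∈ A) : y ∈ nb A := by simp [nb, h]

lemma mem_nb_up {A : Finset ℤ} {y : ℤ} (h : y ∈ A) : y + 1 ∈ nb A := by simp [nb, h]

lemma mem_nb_down {A : Finset ℤ} {y : ℤ} (h : y ∈ A) : y - 1 ∈ nb A := by
  unfold nb
  rw [Finset.mem_union, Finset.mem_union]
  exact Or.inr (Or.inr (Finset.mem_image.2 ⟨y, h, rfl⟩))

lemma card_nb (A : Finset ℤ) : (nb A).card ≤ 3 * A.card := by
  unfold nb
  have h1 := Finset.card_union_le A (A.image (fun y => y + 1) ∪ A.image (fun y => y - 1))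
  have h2 := Finset.card_union_le (A.image (fun y => y + 1)) (A.image (fun y => y - 1))
  have h3 : (A.image (fun y => y + 1)).card ≤ A.card := Finset.card_image_le
  have h4 : (A.image (fun y => y - 1)).card ≤ A.card := Finset.card_image_le
  omega

open Classical in
noncomputable def ind (P : Prop) : ℝ := if P then 1 else 0

lemma ind_true {P : Prop} (h : P) : ind P = 1 := by simp [ind, h]

lemma ind_false {P : Prop} (h : ¬ P) : ind P = 0 := by simp [ind, h]

lemma ind_nonneg (P : Prop) : 0 ≤ ind P := by unfold ind; split_ifs <;> norm_num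

lemma ind_le_one (P : Prop) : ind P ≤ 1 := by unfold ind; split_ifs <;> norm_num

open Classical in
/-- The probability that the vertex `(X, y)` is valid and moves into `A`. -/
noncomputable def pr (c : ℤ → ℤ → Inp) (X : ℤ) (A : Finset ℤ) (y : ℤ) : ℝ :=
  if Valid c X y then 1 / 4 * ind (y + mvk c X y 1 ∈ A) + 1 / 4 * ind (y + mvk c X y (-1) ∈ A)
    + 1 / 2 * ind (y + mvk c X y 0 ∈ A) else 0

lemma mvk_zero (c : ℤ → ℤ → Inp) (x y : ℤ) : mvk c x y 0 = 0 := by simp [mvk]

lemma mvk_one (c : ℤ → ℤ → Inp) (x y : ℤ) (h : c x (y + 1) ≠ void) : mvk c x y 1 = 1 := by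
  simp [mvk, h]

lemma mvk_one' (c : ℤ → ℤ → Inp) (x y : ℤ) (h : c x (y + 1) = void) : mvk c x y 1 = 0 := by
  simp [mvk, h]

lemma mvk_neg (c : ℤ → ℤ → Inp) (x y : ℤ) (h : c x (y - 1) ≠ void) : mvk c x y (-1) = -1 := by
  simp [mvk, h]

lemma mvk_neg' (c : ℤ → ℤ → Inp) (x y : ℤ) (h : c x (y - 1) = void) : mvk c x y (-1) = 0 := by
  simp [mvk, h]

variable {c : ℤ → ℤ → Inp} {X : ℤ}

lemma pr_mem (A : Finset ℤ) (y : ℤ) : 0 ≤ pr c X A y ∧ pr c X A y ≤ 1 := by
  unfold pr
  split_ifs
  · have h1 := ind_nonneg (y + mvk c X y 1 ∈ A)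
    have h2 := ind_nonneg (y + mvk c X y (-1) ∈ A)
    have h3 := ind_nonneg (y + mvk c X y 0 ∈ A)
    have h4 := ind_le_one (y + mvk c X y 1 ∈ A)
    have h5 := ind_le_one (y + mvk c X y (-1) ∈ A)
    have h6 := ind_le_one (y + mvk c X y 0 ∈ A)
    constructor <;> linarith
  · norm_num

lemma valid_of_pr_ne {A : Finset ℤ} {y : ℤ} (h : pr c X A y ≠ 0) : Valid c X y := by
  by_contra hv
  exact h (by simp [pr, hv])

lemma sum_shift_up (A : Finset ℤ) (F : ℤ → ℝ) :
    ∑ y ∈ nb A, (if y + 1 ∈ A then F y else 0) = ∑ y ∈ A, F (y - 1) := by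
  rw [← Finset.sum_filter]
  refine Finset.sum_nbij' (fun y => y + 1) (fun y => y - 1) ?_ ?_ ?_ ?_ ?_
  · intro y hy
    exact (Finset.mem_filter.1 hy).2
  · intro y hy
    rw [Finset.mem_filter]
    exact ⟨mem_nb_down hy, by simpa using hy⟩
  · intro y _
    ring
  · intro y _
    ring
  · intro y _
    congr 1
    ring

lemma sum_shift_down (A : Finset ℤ) (F : ℤ → ℝ) :
    ∑ y ∈ nb A, (if y - 1 ∈ A then F y else 0) = ∑ y ∈ A, F (y + 1) := by
  rw [← Finset.sum_filter]
  refine Finset.sum_nbij' (fun y => y - 1) (fun y => y + 1) ?_ ?_ ?_ ?_ ?_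
  · intro y hy
    exact (Finset.mem_filter.1 hy).2
  · intro y hy
    rw [Finset.mem_filter]
    exact ⟨mem_nb_up hy, by simpa using hy⟩
  · intro y _
    ring
  · intro y _
    ring
  · intro y _
    congr 1
    ring

lemma sum_shift_self (A : Finset ℤ) (F : ℤ → ℝ) :
    ∑ y ∈ nb A, (if y ∈ A then F y else 0) = ∑ y ∈ A, F y := by
  rw [← Finset.sum_filter]
  congr 1
  ext y
  rw [Finset.mem_filter]
  exact ⟨fun h => h.2, fun h => ⟨mem_nb_self h, h⟩⟩

/-- The expected size of the next set. -/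
lemma sum_pr_le (A : Finset ℤ) :
    ∑ y ∈ nb A, pr c X A y ≤ ∑ y ∈ A, (1 - 1 / 2 * ind (¬ Valid c X y)) := by
  classical
  have key : ∀ y, pr c X A y ≤
      (if y + 1 ∈ A then 1 / 4 * (ind (c X y ≠ void) * ind (c X (y + 1) ≠ void)) else 0) +
      (if y - 1 ∈ A then 1 / 4 * (ind (c X y ≠ void) * ind (c X (y - 1) ≠ void)) else 0) +
      (if y ∈ A then ind (Valid c X y) * (1 - 1 / 4 * ind (c X (y + 1) ≠ void)
        - 1 / 4 * ind (c X (y - 1) ≠ void)) else 0) := by
    intro y
    by_cases hv : Valid c X y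
    · have h0 : c X y ≠ void := hv.ne_void
      unfold pr
      rw [if_pos hv, ind_true h0, ind_true hv, mvk_zero, add_zero]
      by_cases h1 : c X (y + 1) = void
      · rw [mvk_one' c X y h1, ind_false (P := c X (y + 1) ≠ void) (by simpa using h1)]
        by_cases h2 : c X (y - 1) = void
        · rw [mvk_neg' c X y h2, ind_false (P := c X (y - 1) ≠ void) (by simpa using h2)]
          by_cases hy : y ∈ A
          · simp [hy, ind]; norm_num
          · simp [hy, ind]
        · rw [mvk_neg c X y h2, ind_true (P := c X (y - 1) ≠ void) h2]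
          have e : y + -1 = y - 1 := by ring
          rw [e]
          by_cases hy : y ∈ A <;> by_cases hy1 : y - 1 ∈ A <;> simp [hy, hy1, ind] <;> norm_num
      · rw [mvk_one c X y h1, ind_true (P := c X (y + 1) ≠ void) h1]
        by_cases h2 : c X (y - 1) = void
        · rw [mvk_neg' c X y h2, ind_false (P := c X (y - 1) ≠ void) (by simpa using h2)]
          by_cases hy : y ∈ A <;> by_cases hy1 : y + 1 ∈ A <;> simp [hy, hy1, ind] <;> norm_num
        · rw [mvk_neg c X y h2, ind_true (P := c X (y - 1) ≠ void) h2]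
          have e : y + -1 = y - 1 := by ring
          rw [e]
          by_cases hy : y ∈ A <;> by_cases hy1 : y - 1 ∈ A <;> by_cases hy2 : y + 1 ∈ A <;>
            simp [hy, hy1, hy2, ind] <;> norm_num
    · have hp : pr c X A y = 0 := by simp [pr, hv]
      rw [hp, ind_false hv, zero_mul]
      have h1 := ind_nonneg (c X y ≠ void)
      have h2 := ind_nonneg (c X (y + 1) ≠ void)
      have h3 := ind_nonneg (c X (y - 1) ≠ void)
      have h4 := mul_nonneg h1 h2
      have h5 := mul_nonneg h1 h3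
      split_ifs <;> linarith
  refine le_trans (Finset.sum_le_sum fun y _ => key y) ?_
  rw [Finset.sum_add_distrib, Finset.sum_add_distrib, sum_shift_up, sum_shift_down,
    sum_shift_self, ← Finset.sum_add_distrib, ← Finset.sum_add_distrib]
  refine Finset.sum_le_sum fun y _ => ?_
  have e1 : y - 1 + 1 = y := by ring
  have e2 : y + 1 - 1 = y := by ring
  rw [e1, e2]
  have h1 := ind_nonneg (c X (y + 1) ≠ void)
  have h2 := ind_nonneg (c X (y - 1) ≠ void)
  have h3 := ind_le_one (c X (y + 1) ≠ void)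
  have h4 := ind_le_one (c X (y - 1) ≠ void)
  by_cases hv : Valid c X y
  · rw [ind_true hv, ind_true hv.ne_void, ind_false (P := ¬ Valid c X y) (by simpa using hv)]
    linarith
  · rw [ind_false hv, ind_true (P := ¬ Valid c X y) hv]
    have h5 := ind_nonneg (c X y ≠ void)
    have h6 := ind_le_one (c X y ≠ void)
    have h7 : ind (c X (y - 1) ≠ void) * ind (c X y ≠ void) ≤ 1 := by nlinarith
    have h8 : ind (c X (y + 1) ≠ void) * ind (c X y ≠ void) ≤ 1 := by nlinarith
    linarith

end MP7172bf
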