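import Pool.Agent.H.MP_7172bf_co.helper55.Link

/-!
# The local problem and the algorithm
-/

namespace MP7172bf

open MeasureTheory Inp Mov

/-- Extend a labelled ball of radius `n` by the default label `d0`. -/
def ext {α : Type} (d0 : α) (n : ℕ) (l : Ball 2 n → α) (a b : ℤ) : α :=
  if h : nrm (![a, b] : Pt 2) ≤ n then l ⟨![a, b], h⟩ else d0

lemma nrm_two (a b : ℤ) : nrm (![a, b] : Pt 2) = a.natAbs + b.natAbs := by
  simp [nrm, Fin.sum_univ_two]

lemma nrm_le_iff (a b : ℤ) (n : ℕ) : nrm (![a, b] : Pt 2) ≤ n ↔ |a| + |b| ≤ n := by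
  rw [nrm_two, Int.abs_eq_natAbs, Int.abs_eq_natAbs]
  omega

lemma pt_eta (u : Pt 2) : u = ![u 0, u 1] := by
  ext i
  fin_cases i <;> rfl

lemma add_pt (u : Pt 2) (a b : ℤ) : u + ![a, b] = ![a + u 0, b + u 1] := by
  ext i
  fin_cases i
  · show u 0 + a = a + u 0
    ring
  · show u 1 + b = b + u 1
    ring

lemma ext_look {α : Type} (d0 : α) (n : ℕ) (f : Pt 2 → α) (u : Pt 2) (a b : ℤ)
    (h : |a| + |b| ≤ n) : ext d0 n (look n f u) a b = f ![a + u 0, b + u 1] := by
  unfold ext
  rw [dif_pos ((nrm_le_iff a b n).2 h)]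
  show f (u + ![a, b]) = _
  rw [add_pt]

/-- The local problem. -/
def PP : LocalProblem 2 where
  In := Inp
  Out := Mov
  finIn := inferInstance
  finOut := inferInstance
  t := 2
  allowed := {l | Con (fun a b => (ext (void, zero) 2 l a b).1)
    (fun a b => (ext (void, zero) 2 l a b).2) 0 0}

lemma con_congr {c c' : ℤ → ℤ → Inp} {o o' : ℤ → ℤ → Mov} {x y : ℤ}
    (h : ∀ a b : ℤ, |a| + |b| ≤ 2 → c a b = c' (a + x) (b + y))
    (ho : ∀ a b : ℤ, |a| + |b| ≤ 2 → o a b = o' (a + x) (b + y)) :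
    Con c o 0 0 ↔ Con c' o' x y := by
  have hv := valid_congr (c := c) (c' := c') (x := 0) (y := 0) (dx := x) (dy := y)
    (by simpa using h)
  unfold Con
  rw [hv]
  have h1 := h 0 0 (by simp)
  have h2 := h 0 1 (by norm_num)
  have h3 := h 0 (-1) (by norm_num)
  have h4 := ho 0 0 (by simp)
  have h5 := ho (-1) (-1) (by norm_num)
  have h6 := ho (-1) 0 (by norm_num)
  have h7 := ho (-1) 1 (by norm_num)
  have e1 : (0 : ℤ) + 1 = 1 := by norm_num
  have e2 : (0 : ℤ) - 1 = -1 := by norm_num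
  rw [e1, e2, h1, h2, h3, h4, h5, h6, h7]
  have e3 : 0 + x = x := by ring
  have e4 : 0 + y = y := by ring
  have e5 : 1 + y = y + 1 := by ring
  have e6 : -1 + y = y - 1 := by ring
  have e7 : -1 + x = x - 1 := by ring
  rw [e3, e4, e5, e6, e7]

lemma solves_iff (inp : Pt 2 → Inp) (out : Pt 2 → Mov) :
    PP.Solves inp out ↔ ∀ x y, Con (fun a b => inp ![a, b]) (fun a b => out ![a, b]) x y := by
  have key : ∀ u : Pt 2, (look PP.t (fun v => ((inp v, out v) : Inp × Mov)) u ∈ PP.allowed ↔
      Con (fun a b => inp ![a, b]) (fun a b => out ![a, b]) (u 0) (u 1)) := by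
    intro u
    have hm : (look PP.t (fun v => ((inp v, out v) : Inp × Mov)) u ∈ PP.allowed ↔
        Con (fun a b => (ext (void, zero) 2 (look 2 (fun v => (inp v, out v)) u) a b).1)
          (fun a b => (ext (void, zero) 2 (look 2 (fun v => (inp v, out v)) u) a b).2) 0 0) :=
      Iff.rfl
    rw [hm]
    refine con_congr ?_ ?_
    · intro a b hab
      have := ext_look (void, zero) 2 (fun v => ((inp v, out v) : Inp × Mov)) u a b
        (by exact_mod_cast hab)
      exact congrArg Prod.fst this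
    · intro a b hab
      have := ext_look (void, zero) 2 (fun v => ((inp v, out v) : Inp × Mov)) u a b
        (by exact_mod_cast hab)
      exact congrArg Prod.snd this
  constructor
  · intro h x y
    have := (key ![x, y]).1 (h ![x, y])
    simpa using this
  · intro h u
    exact (key u).2 (h (u 0) (u 1))

open Classical in
/-- The answer after inspecting radius `n`, in global coordinates. -/
noncomputable def ruleG (c : ℤ → ℤ → Inp) (r : ℤ → ℤ → ℤ) (n : ℕ) (x y : ℤ) : Option Mov :=
  if n < 2 then none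
  else if Alive c r (n / 2 - 1) x y then none else some (outn c r (n / 2 - 1) x y)

lemma ruleG_mono (c : ℤ → ℤ → Inp) (r : ℤ → ℤ → ℤ) (n : ℕ) (x y : ℤ) (o : Mov)
    (h : ruleG c r n x y = some o) : ruleG c r (n + 1) x y = some o := by
  unfold ruleG at h ⊢
  split_ifs at h with h1 h2
  have h3 : ¬ n + 1 < 2 := by omega
  have h4 : n / 2 - 1 ≤ (n + 1) / 2 - 1 := by omega
  rw [if_neg h3, if_neg (not_alive_mono h4 h2)]
  unfold outn at h ⊢
  rw [valn_stable _ _ _ h2 _ h4]
  exact h

lemma ruleG_congr {c c' : ℤ → ℤ → Inp} {r r' : ℤ → ℤ → ℤ} {dx dy : ℤ} (n : ℕ)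
    (h : ∀ a b : ℤ, |a| + |b| ≤ n → c a b = c' (a + dx) (b + dy) ∧ r a b = r' (a + dx) (b + dy)) :
    ruleG c r n 0 0 = ruleG c' r' n dx dy := by
  unfold ruleG
  by_cases hn : n < 2
  · rw [if_pos hn, if_pos hn]
  · rw [if_neg hn, if_neg hn]
    have h' : ∀ a b : ℤ, |a - 0| + |b - 0| ≤ 2 * ((n / 2 - 1 : ℕ) : ℤ) + 2 →
        c a b = c' (a + dx) (b + dy) ∧ r a b = r' (a + dx) (b + dy) := by
      intro a b hab
      refine h a b ?_
      rw [sub_zero, sub_zero] at hab
      omega
    have h1 := alive_congr (n / 2 - 1) 0 0 h'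
    have h2 := outn_congr (n / 2 - 1) 0 0 h'
    rw [zero_add, zero_add] at h1 h2
    by_cases ha : Alive c r (n / 2 - 1) 0 0
    · rw [if_pos ha, if_pos (h1.1 ha)]
    · rw [if_neg ha, if_neg (fun h3 => ha (h1.2 h3)), h2]

/-- A default string. -/
def str0 : Str := fun _ => false

/-- The rule of the algorithm. -/
noncomputable def rul (n : ℕ) (l : Ball 2 n → Inp × Str) : Option Mov :=
  ruleG (fun a b => (ext (void, str0) n l a b).1) (fun a b => raw (ext (void, str0) n l a b).2)
    n 0 0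

lemma rul_look (n : ℕ) (f : Pt 2 → Inp × Str) (u : Pt 2) :
    rul n (look n f u) =
      ruleG (fun a b => (f ![a, b]).1) (fun a b => raw (f ![a, b]).2) n (u 0) (u 1) := by
  unfold rul
  refine ruleG_congr n fun a b hab => ?_
  rw [ext_look _ _ _ _ _ _ hab]
  exact ⟨rfl, rfl⟩

instance finite_ball (d n : ℕ) : Finite (Ball d n) := by
  have h : ({v : Pt d | nrm v ≤ n} : Set (Pt d)).Finite := by
    refine Set.Finite.subset (Set.finite_Icc (fun _ => -(n : ℤ)) (fun _ => (n : ℤ))) ?_
    intro v hv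
    have hv' : nrm v ≤ n := hv
    have h1 : ∀ i, (v i).natAbs ≤ n := by
      intro i
      refine le_trans ?_ hv'
      exact Finset.single_le_sum (f := fun i => (v i).natAbs) (fun _ _ => Nat.zero_le _)
        (Finset.mem_univ i)
    rw [Set.mem_Icc]
    constructor
    · intro i
      have := h1 i
      show -(n : ℤ) ≤ v i
      omega
    · intro i
      have := h1 i
      show v i ≤ (n : ℤ)
      omega
  exact h.to_subtype

lemma rul_meas (n : ℕ) (i : Ball 2 n → Inp) (o : Option Mov) :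
    MeasurableSet {s : Ball 2 n → Str | rul n (fun b => (i b, s b)) = o} := by
  set Φ : (Ball 2 n → Str) → (Ball 2 n → ℤ) := fun s b => raw (s b) with hΦ
  have hmeas : Measurable Φ :=
    measurable_pi_iff.2 fun b => measurable_raw.comp (measurable_pi_apply b)
  have hfac : ∀ s s' : Ball 2 n → Str, Φ s = Φ s' →
      rul n (fun b => (i b, s b)) = rul n (fun b => (i b, s' b)) := by
    intro s s' hss
    unfold rul
    have e1 : (fun a b => (ext (void, str0) n (fun b => (i b, s b)) a b).1) =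
        fun a b => (ext (void, str0) n (fun b => (i b, s' b)) a b).1 := by
      funext a b
      unfold ext
      split_ifs <;> rfl
    have e2 : (fun a b => raw (ext (void, str0) n (fun b => (i b, s b)) a b).2) =
        fun a b => raw (ext (void, str0) n (fun b => (i b, s' b)) a b).2 := by
      funext a b
      unfold ext
      split_ifs with h
      · exact congrFun hss ⟨![a, b], h⟩
      · rfl
    rw [e1, e2]
  have e : {s : Ball 2 n → Str | rul n (fun b => (i b, s b)) = o} =
      Φ ⁻¹' (Φ '' {s : Ball 2 n → Str | rul n (fun b => (i b, s b)) = o}) := by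
    ext s
    constructor
    · intro h
      exact ⟨s, h, rfl⟩
    · rintro ⟨s', hs', he⟩
      show rul n (fun b => (i b, s b)) = o
      rw [← hfac s' s he]
      exact hs'
  rw [e]
  exact hmeas (Set.to_countable _).measurableSet

/-- The algorithm. -/
noncomputable def AA : Algorithm PP where
  rule := rul
  mono := by
    intro f n o h
    have h1 : rul n (look n f 0) = some o := h
    show rul (n + 1) (look (n + 1) f 0) = some o
    rw [rul_look] at h1 ⊢
    exact ruleG_mono _ _ _ _ _ _ h1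
  meas := rul_meas

/-- The input in coordinates. -/
def cc (inp : Pt 2 → Inp) (a b : ℤ) : Inp := inp ![a, b]

lemma run_AA (inp : Pt 2 → Inp) (ω : Pt 2 → Str) (n : ℕ) (u : Pt 2) :
    AA.run inp ω n u = ruleG (cc inp) (rr ω) n (u 0) (u 1) :=
  rul_look n (fun v => (inp v, ω v)) u

lemma ae_not_alive (c : ℤ → ℤ → Inp) :
    ∀ᵐ ω ∂(rnd 2), ∀ x y : ℤ, ∃ n, ¬ Alive c (rr ω) n x y := by
  rw [ae_all_iff]
  intro x
  rw [ae_all_iff]
  intro y
  rw [ae_iff]
  refine le_antisymm ?_ zero_le
  have hlim : Filter.Tendsto (fun n : ℕ => ENNReal.ofReal (102 / Real.sqrt n))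
      Filter.atTop (nhds 0) := by
    rw [← ENNReal.ofReal_zero]
    refine ENNReal.tendsto_ofReal ?_
    refine Filter.Tendsto.div_atTop tendsto_const_nhds ?_
    exact Real.tendsto_sqrt_atTop.comp tendsto_natCast_atTop_atTop
  refine ge_of_tendsto hlim ?_
  filter_upwards [Filter.eventually_ge_atTop 1] with n hn
  refine le_trans (measure_mono ?_) (rnd_alive c n hn x y)
  intro ω hω
  by_contra h
  exact hω ⟨n, h⟩

lemma AA_solves : AA.Solves := by
  intro inp
  filter_upwards [ae_not_alive (cc inp)] with ω hω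
  choose N hN using hω
  set val : ℤ → ℤ → Bool := fun x y => valn (cc inp) (rr ω) (N x y) x y with hval
  refine ⟨fun u => if val (u 0) (u 1) = true then dir (mv (cc inp) (rr ω) (u 0) (u 1)) else zero,
    ?_, ?_⟩
  · intro u
    refine ⟨2 * (N (u 0) (u 1) + 1), ?_⟩
    rw [run_AA]
    unfold ruleG
    have h1 : ¬ 2 * (N (u 0) (u 1) + 1) < 2 := by omega
    have h2 : 2 * (N (u 0) (u 1) + 1) / 2 - 1 = N (u 0) (u 1) := by omega
    rw [if_neg h1, h2, if_neg (hN _ _)]
    rfl
  · refine (solves_iff inp _).2 fun x y => ?_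
    have := con_of_final (c := cc inp) (r := rr ω) (val := val)
      (fun x y => ⟨N x y, fun m hm => valn_stable _ _ _ (hN x y) m hm⟩) x y
    show Con (cc inp) (fun a b => if val a b = true then dir (mv (cc inp) (rr ω) a b) else zero) x y
    exact this

lemma AA_tail (s : ℕ) (hs : 1 ≤ s) (t : ℝ) (ht : 2 * (s : ℝ) + 2 ≤ t) :
    AA.tail t ≤ ENNReal.ofReal (102 / Real.sqrt s) := by
  unfold Algorithm.tail
  refine iSup_le fun inp => ?_
  refine le_trans (measure_mono ?_) (rnd_alive (cc inp) s hs 0 0)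
  intro ω hω
  have h1 := hω (2 * (s + 1)) (by push_cast; linarith)
  rw [run_AA] at h1
  unfold ruleG at h1
  have h2 : ¬ 2 * (s + 1) < 2 := by omega
  have h3 : 2 * (s + 1) / 2 - 1 = s := by omega
  rw [if_neg h2, h3] at h1
  show Alive (cc inp) (rr ω) s 0 0
  by_contra hn
  have hn' : ¬ Alive (cc inp) (rr ω) s ((0 : Pt 2) 0) ((0 : Pt 2) 1) := hn
  rw [if_neg hn'] at h1
  exact absurd h1 (by simp)

lemma AA_upper : AA.UniformComplexity fun ε => 20815 * (1 / ε) ^ 2 := by
  refine ⟨1, one_pos, fun ε h0 h1 => ?_⟩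
  show AA.tail (20815 * (1 / ε) ^ 2) ≤ _
  set w := (1 / ε) ^ 2 with hw
  have hinv : 1 < 1 / ε := by
    rw [lt_div_iff₀ h0]; linarith
  have hw1 : 1 < w := by
    rw [hw]; nlinarith
  set s := ⌈10404 * w⌉₊ with hs
  have hs1 : 10404 * w ≤ s := Nat.le_ceil _
  have hs2 : (s : ℝ) < 10404 * w + 1 := Nat.ceil_lt_add_one (by positivity)
  have hs0 : 1 ≤ s := by
    have : (1 : ℝ) ≤ s := by linarith
    exact_mod_cast this
  refine (AA_tail s hs0 _ (by linarith)).trans (ENNReal.ofReal_le_ofReal ?_)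
  have hsq : 102 / ε ≤ Real.sqrt s := by
    apply Real.le_sqrt_of_sq_le
    calc (102 / ε) ^ 2 = 10404 * w := by rw [hw]; ring
      _ ≤ s := hs1
  have hpos : 0 < Real.sqrt s := lt_of_lt_of_le (by positivity) hsq
  rw [div_le_iff₀ hpos]
  rw [div_le_iff₀ h0] at hsq
  linarith

end MP7172bf
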